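import Pool.Agent.TH677.SG.Main

/-!
Formulas with few deep subformulas: translation to formulas of bounded depth.
-/

set_option autoImplicit false
set_option linter.unusedSectionVars false

namespace Pool.Agent.TH677.DS

open Finset Pool.Agent.TH710.PHP
open Pool.Agent.TH677.SG (orL sub_orL alt_orL_true alt_orL_false sub_trans' allSub_sub)

variable {α : Type}

open Classical in
/-- the set of the subformulas of depth more than `d` -/
noncomputable def deep (d : ℕ) (φ : Fm α) : Finset (Fm α) := φ.sub.filter (fun χ => d < χ.depth)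

lemma mem_deep {d : ℕ} {φ χ : Fm α} : χ ∈ deep d φ ↔ χ ∈ φ.sub ∧ d < χ.depth := by
  classical
  rw [deep, mem_filter]

def top : Fm α := .and 0 Fin.elim0
def bot : Fm α := .or 0 Fin.elim0
def cb (b : Bool) : Fm α := if b = true then top else bot

open Classical in
noncomputable def E (d : ℕ) (a : Finset (Fm α)) (ψ : Fm α) : Fm α :=
  if d < ψ.depth then cb (decide (ψ ∈ a)) else ψ

noncomputable def D (d : ℕ) (a : Finset (Fm α)) : Fm α → Fm α
  | .var x => .var x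
  | .neg ψ => .neg (E d a ψ)
  | .and t φs => .and t (fun j => E d a (φs j))
  | .or t φs => .or t (fun j => E d a (φs j))

def andL (l : List (Fm α)) : Fm α := .and l.length (fun i => l.get i)

open Classical in
noncomputable def lt (d : ℕ) (a : Finset (Fm α)) (χ : Fm α) : Fm α :=
  if χ ∈ a then D d a χ else .neg (D d a χ)

open Classical in
noncomputable def tm (d : ℕ) (φ : Fm α) (W a : Finset (Fm α)) : Fm α :=
  andL (W.toList.map (lt d a) ++ [cb (decide (φ ∈ a))])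

open Classical in
noncomputable def ct (d : ℕ) (φ : Fm α) : Fm α :=
  if d < φ.depth then orL ((deep d φ).powerset.toList.map (tm d φ (deep d φ))) else φ

/-- immediate subformulas -/
def Ch (ψ : Fm α) : Fm α → Prop
  | .var _ => False
  | .neg φ => ψ = φ
  | .and _ φs => ∃ j, ψ = φs j
  | .or _ φs => ∃ j, ψ = φs j

lemma Ch.size {ψ χ : Fm α} (h : Ch ψ χ) : ψ.size < χ.size := by
  cases χ with
  | var x => exact h.elim
  | neg φ => rw [show ψ = φ from h, Fm.size]; omega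
  | and t φs =>
    obtain ⟨j, rfl⟩ := h
    rw [Fm.size]
    exact Nat.lt_succ_of_le (Finset.single_le_sum (f := fun j => (φs j).size)
      (fun _ _ => Nat.zero_le _) (mem_univ j))
  | or t φs =>
    obtain ⟨j, rfl⟩ := h
    rw [Fm.size]
    exact Nat.lt_succ_of_le (Finset.single_le_sum (f := fun j => (φs j).size)
      (fun _ _ => Nat.zero_le _) (mem_univ j))

lemma Ch.sub {ψ χ : Fm α} (h : Ch ψ χ) : ψ ∈ χ.sub := by
  classical
  cases χ with
  | var x => exact h.elim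
  | neg φ => rw [show ψ = φ from h, Fm.sub, mem_insert]; exact Or.inr (self_mem_sub _)
  | and t φs =>
    obtain ⟨j, rfl⟩ := h
    rw [Fm.sub, mem_insert, mem_biUnion]; exact Or.inr ⟨j, mem_univ _, self_mem_sub _⟩
  | or t φs =>
    obtain ⟨j, rfl⟩ := h
    rw [Fm.sub, mem_insert, mem_biUnion]; exact Or.inr ⟨j, mem_univ _, self_mem_sub _⟩

lemma E_congr {d : ℕ} {a b : Finset (Fm α)} {ψ : Fm α}
    (h : d < ψ.depth → (ψ ∈ a ↔ ψ ∈ b)) : E d a ψ = E d b ψ := by
  classical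
  unfold E
  split_ifs with h1
  · rw [decide_eq_decide.mpr (h h1)]
  · rfl

lemma D_congr {d : ℕ} {a b : Finset (Fm α)} {χ : Fm α}
    (h : ∀ ψ, Ch ψ χ → d < ψ.depth → (ψ ∈ a ↔ ψ ∈ b)) : D d a χ = D d b χ := by
  cases χ with
  | var x => rfl
  | neg φ => rw [D, D, E_congr (h φ rfl)]
  | and t φs =>
    rw [D, D]; congr 1; funext j; exact E_congr (h _ ⟨j, rfl⟩)
  | or t φs =>
    rw [D, D]; congr 1; funext j; exact E_congr (h _ ⟨j, rfl⟩)

lemma D_shallow {d : ℕ} {a : Finset (Fm α)} {χ : Fm α} (h : χ.depth ≤ d) : D d a χ = χ := by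
  have key : ∀ ψ, Ch ψ χ → E d a ψ = ψ := by
    intro ψ hψ
    unfold E
    rw [if_neg]
    have := depth_sub χ ψ hψ.sub
    omega
  cases χ with
  | var x => rfl
  | neg φ => rw [D, key φ rfl]
  | and t φs => rw [D]; congr 1; funext j; exact key _ ⟨j, rfl⟩
  | or t φs => rw [D]; congr 1; funext j; exact key _ ⟨j, rfl⟩

lemma deep_shallow {d : ℕ} {φ : Fm α} (h : φ.depth ≤ d) : deep d φ = ∅ := by
  rw [eq_empty_iff_forall_notMem]
  intro χ hχ
  rw [mem_deep] at hχ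
  have := depth_sub φ χ hχ.1
  omega

lemma deep_closed {d : ℕ} {φ χ ψ : Fm α} (hχ : χ ∈ deep d φ) (hc : Ch ψ χ) (hψ : d < ψ.depth) :
    ψ ∈ deep d φ := by
  rw [mem_deep] at hχ ⊢
  exact ⟨sub_trans' φ χ hχ.1 hc.sub, hψ⟩

lemma deep_mono {d : ℕ} {φ χ : Fm α} (hχ : χ ∈ φ.sub) : deep d χ ⊆ deep d φ := by
  intro ψ hψ
  rw [mem_deep] at hψ ⊢
  exact ⟨sub_trans' φ χ hχ hψ.1, hψ.2⟩

/-! ### depth -/

lemma alt_cb (b s : Bool) : (cb b : Fm α).alt s ≤ 1 := by
  cases b <;> cases s <;> simp [cb, top, bot, Fm.alt]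

lemma alt_E {d : ℕ} (hd : 1 ≤ d) (a : Finset (Fm α)) (ψ : Fm α) (s : Bool) :
    (E d a ψ).alt s ≤ d := by
  classical
  unfold E
  split_ifs with h
  · exact (alt_cb _ _).trans hd
  · have h1 : ψ.depth ≤ d := by omega
    rw [Fm.depth] at h1
    cases s
    · exact (le_max_right _ _).trans h1
    · exact (le_max_left _ _).trans h1

lemma alt_D {d : ℕ} (hd : 1 ≤ d) (a : Finset (Fm α)) (χ : Fm α) (s : Bool) :
    (D d a χ).alt s ≤ d + 1 := by
  cases χ with
  | var x => simp [D, Fm.alt]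
  | neg φ =>
    simp only [D, Fm.alt]
    exact (alt_E hd a φ _).trans (Nat.le_succ _)
  | and t φs =>
    have h : univ.sup (fun j => (E d a (φs j)).alt false) ≤ d :=
      Finset.sup_le (fun j _ => alt_E hd a _ _)
    cases s <;> simp only [D, Fm.alt] <;> omega
  | or t φs =>
    have h : univ.sup (fun j => (E d a (φs j)).alt true) ≤ d :=
      Finset.sup_le (fun j _ => alt_E hd a _ _)
    cases s <;> simp only [D, Fm.alt] <;> omega

lemma alt_lt {d : ℕ} (hd : 1 ≤ d) (a : Finset (Fm α)) (χ : Fm α) (s : Bool) :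
    (lt d a χ).alt s ≤ d + 1 := by
  classical
  unfold lt
  split_ifs
  · exact alt_D hd a χ s
  · rw [Fm.alt]; exact alt_D hd a χ _

lemma alt_tm {d : ℕ} (hd : 1 ≤ d) (φ : Fm α) (W a : Finset (Fm α)) :
    (tm d φ W a).alt true ≤ d + 2 := by
  classical
  simp only [tm, andL, Fm.alt]
  refine Nat.succ_le_succ (Finset.sup_le (fun i _ => ?_))
  have hi := List.get_mem (W.toList.map (lt d a) ++ [cb (decide (φ ∈ a))]) i
  generalize (W.toList.map (lt d a) ++ [cb (decide (φ ∈ a))]).get i = ψ at hi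
  rw [List.mem_append, List.mem_map, List.mem_singleton] at hi
  rcases hi with ⟨χ, _, rfl⟩ | rfl
  · exact alt_lt hd a χ _
  · exact (alt_cb _ _).trans (by omega)

lemma depth_ct {d : ℕ} (hd : 1 ≤ d) (φ : Fm α) : (ct d φ).depth ≤ d + 3 := by
  classical
  unfold ct
  split_ifs with h
  · have h1 : ∀ ψ ∈ (deep d φ).powerset.toList.map (tm d φ (deep d φ)), ψ.alt true ≤ d + 2 := by
      intro ψ hψ
      obtain ⟨a, _, rfl⟩ := List.mem_map.mp hψ
      exact alt_tm hd φ _ a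
    have h2 := alt_orL_true h1
    have h3 := alt_orL_false h1
    rw [Fm.depth]
    exact max_le (by omega) (by omega)
  · omega

/-! ### membership -/

lemma sub_andL {l : List (Fm α)} {ψ χ : Fm α} (hψ : ψ ∈ l) (hχ : χ ∈ ψ.sub) :
    χ ∈ (andL l).sub := by
  classical
  obtain ⟨i, rfl⟩ := List.get_of_mem hψ
  rw [andL, Fm.sub, mem_insert, mem_biUnion]
  exact Or.inr ⟨i, mem_univ _, hχ⟩

lemma D_sub_lt {d : ℕ} {a : Finset (Fm α)} {χ : Fm α} : D d a χ ∈ (lt d a χ).sub := by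
  classical
  unfold lt
  split_ifs
  · exact self_mem_sub _
  · rw [Fm.sub, mem_insert]; exact Or.inr (self_mem_sub _)

lemma tm_mem {d : ℕ} {φ : Fm α} {a : Finset (Fm α)} (ha : a ⊆ deep d φ) :
    tm d φ (deep d φ) a ∈ (deep d φ).powerset.toList.map (tm d φ (deep d φ)) := by
  classical
  exact List.mem_map.mpr ⟨a, by rw [Finset.mem_toList, mem_powerset]; exact ha, rfl⟩

lemma tm_sub {d : ℕ} {φ : Fm α} (hφ : d < φ.depth) {a : Finset (Fm α)} (ha : a ⊆ deep d φ) :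
    tm d φ (deep d φ) a ∈ (ct d φ).sub := by
  classical
  rw [ct, if_pos hφ]
  exact sub_orL (tm_mem ha) (self_mem_sub _)

lemma lt_mem {d : ℕ} {φ χ : Fm α} {W a : Finset (Fm α)} (hχ : χ ∈ W) :
    lt d a χ ∈ W.toList.map (lt d a) ++ [cb (by classical exact decide (φ ∈ a))] := by
  classical
  rw [List.mem_append, List.mem_map]
  exact Or.inl ⟨χ, Finset.mem_toList.mpr hχ, rfl⟩

lemma D_sub {d : ℕ} {φ χ : Fm α} (hφ : d < φ.depth) {a : Finset (Fm α)} (ha : a ⊆ deep d φ)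
    (hχ : χ ∈ deep d φ) : D d a χ ∈ (ct d φ).sub := by
  classical
  have h1 : D d a χ ∈ (tm d φ (deep d φ) a).sub := by
    rw [tm]
    refine sub_andL (ψ := lt d a χ) ?_ D_sub_lt
    rw [List.mem_append, List.mem_map]
    exact Or.inl ⟨χ, Finset.mem_toList.mpr hχ, rfl⟩
  exact sub_trans' _ _ (tm_sub hφ ha) h1

/-! ### number of subformulas -/

/-- the new formulas made from `φ` -/
lemma ct_sub_subset {d : ℕ} {φ : Fm α} (𝒱 : Finset (Fm α)) (h𝒱 : ∀ ψ ∈ 𝒱, ∀ χ ∈ ψ.sub, χ ∈ 𝒱)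
    (hφ : φ ∈ 𝒱) {w : ℕ} (hw : (deep d φ).card ≤ w) :
    ∃ N : Finset (Fm α), N.card ≤ 1 + 2 ^ w + 2 * (w * 2 ^ w) ∧
      ∀ χ ∈ (ct d φ).sub, χ ∈ N ∨ χ = top ∨ χ = bot ∨ χ ∈ 𝒱 := by
  classical
  by_cases h : d < φ.depth
  swap
  · refine ⟨∅, by simp, ?_⟩
    intro χ hχ
    rw [ct, if_neg h] at hχ
    exact Or.inr (Or.inr (Or.inr (h𝒱 φ hφ χ hχ)))
  set W := deep d φ with hW
  refine ⟨insert (ct d φ) (W.powerset.image (tm d φ W)) ∪
    (W.powerset.biUnion (fun a => W.image (D d a)) ∪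
      W.powerset.biUnion (fun a => W.image (fun χ => Fm.neg (D d a χ)))), ?_, ?_⟩
  · have h0 : W.powerset.card ≤ 2 ^ w := by
      rw [card_powerset]; exact Nat.pow_le_pow_right (by norm_num) hw
    have h1 : (insert (ct d φ) (W.powerset.image (tm d φ W))).card ≤ 1 + 2 ^ w := by
      have := card_insert_le (ct d φ) (W.powerset.image (tm d φ W))
      have := card_image_le (s := W.powerset) (f := tm d φ W)
      omega
    have h2 : (W.powerset.biUnion (fun a => W.image (D d a))).card ≤ w * 2 ^ w := by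
      refine (card_biUnion_le_card_mul _ _ w (fun a _ => card_image_le.trans hw)).trans ?_
      rw [mul_comm]
      exact Nat.mul_le_mul_left _ h0
    have h3 : (W.powerset.biUnion (fun a => W.image (fun χ => Fm.neg (D d a χ)))).card ≤
        w * 2 ^ w := by
      refine (card_biUnion_le_card_mul _ _ w (fun a _ => card_image_le.trans hw)).trans ?_
      rw [mul_comm]
      exact Nat.mul_le_mul_left _ h0
    refine (card_union_le _ _).trans ?_
    have h4 := card_union_le (W.powerset.biUnion (fun a => W.image (D d a)))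
      (W.powerset.biUnion (fun a => W.image (fun χ => Fm.neg (D d a χ))))
    generalize w * 2 ^ w = z at h2 h3 ⊢
    omega
  -- subformulas of `E`
  have hE : ∀ (a : Finset (Fm α)) (ψ χ : Fm α), ψ ∈ 𝒱 → χ ∈ (E d a ψ).sub →
      χ = top ∨ χ = bot ∨ χ ∈ 𝒱 := by
    intro a ψ χ hψ hχ
    unfold E at hχ
    split_ifs at hχ with h1
    · cases hb : decide (ψ ∈ a) with
      | true =>
        rw [hb, cb, if_pos rfl, top, Fm.sub, mem_insert, mem_biUnion] at hχ
        rcases hχ with rfl | ⟨i, _, _⟩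
        · left; rfl
        · exact i.elim0
      | false =>
        rw [hb, cb, if_neg (by simp), bot, Fm.sub, mem_insert, mem_biUnion] at hχ
        rcases hχ with rfl | ⟨i, _, _⟩
        · right; left; rfl
        · exact i.elim0
    · exact Or.inr (Or.inr (h𝒱 ψ hψ χ hχ))
  have hWV : ∀ χ ∈ W, χ ∈ 𝒱 := fun χ hχ => h𝒱 φ hφ χ (mem_deep.mp hχ).1
  have hD : ∀ (a : Finset (Fm α)) (ψ χ : Fm α), ψ ∈ 𝒱 → χ ∈ (D d a ψ).sub →
      χ = D d a ψ ∨ χ = top ∨ χ = bot ∨ χ ∈ 𝒱 := by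
    intro a ψ χ hψ hχ
    cases ψ with
    | var x =>
      rw [D, Fm.sub, mem_singleton] at hχ
      left; rw [hχ]; rfl
    | neg θ =>
      rw [D, Fm.sub, mem_insert] at hχ
      rcases hχ with h1 | h1
      · left; rw [h1]; rfl
      · right; exact hE a θ χ (h𝒱 _ hψ _ (Ch.sub (ψ := θ) (χ := .neg θ) rfl)) h1
    | and t φs =>
      rw [D, Fm.sub, mem_insert, mem_biUnion] at hχ
      rcases hχ with h1 | ⟨j, _, h1⟩
      · left; rw [h1]; rfl
      · right; exact hE a (φs j) χ (h𝒱 _ hψ _ (Ch.sub (χ := .and t φs) ⟨j, rfl⟩)) h1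
    | or t φs =>
      rw [D, Fm.sub, mem_insert, mem_biUnion] at hχ
      rcases hχ with h1 | ⟨j, _, h1⟩
      · left; rw [h1]; rfl
      · right; exact hE a (φs j) χ (h𝒱 _ hψ _ (Ch.sub (χ := .or t φs) ⟨j, rfl⟩)) h1
  intro χ hχ
  have hχ0 := hχ
  rw [ct, if_pos h, orL, Fm.sub, mem_insert, mem_biUnion] at hχ
  rcases hχ with h1 | ⟨i, _, h1⟩
  · left
    rw [mem_union, mem_insert]
    left; left
    rw [h1, ct, if_pos h, orL]
  have hi := List.get_mem (W.powerset.toList.map (tm d φ W)) i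
  generalize (W.powerset.toList.map (tm d φ W)).get i = ψ at hi h1
  obtain ⟨a, ha, rfl⟩ := List.mem_map.mp hi
  rw [Finset.mem_toList] at ha
  rw [tm, andL, Fm.sub, mem_insert, mem_biUnion] at h1
  rcases h1 with h1 | ⟨i, _, h1⟩
  · left
    rw [mem_union, mem_insert]
    left; right
    rw [mem_image]
    exact ⟨a, ha, by rw [h1, tm, andL]⟩
  have hi := List.get_mem (W.toList.map (lt d a) ++ [cb (decide (φ ∈ a))]) i
  generalize (W.toList.map (lt d a) ++ [cb (decide (φ ∈ a))]).get i = ψ at hi h1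
  rw [List.mem_append, List.mem_map, List.mem_singleton] at hi
  rcases hi with ⟨θ, hθ, rfl⟩ | rfl
  · rw [Finset.mem_toList] at hθ
    unfold lt at h1
    have key : χ ∈ (D d a θ).sub → χ ∈ insert (ct d φ) (W.powerset.image (tm d φ W)) ∪
        (W.powerset.biUnion (fun a => W.image (D d a)) ∪
          W.powerset.biUnion (fun a => W.image (fun χ => Fm.neg (D d a χ)))) ∨
        χ = top ∨ χ = bot ∨ χ ∈ 𝒱 := by
      intro h2
      rcases hD a θ χ (hWV θ hθ) h2 with h3 | h3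
      · left
        rw [mem_union, mem_union, mem_biUnion]
        right; left
        exact ⟨a, ha, by rw [h3]; exact mem_image_of_mem _ hθ⟩
      · exact Or.inr h3
    split_ifs at h1
    · exact key h1
    · rw [Fm.sub, mem_insert] at h1
      rcases h1 with h1 | h1
      · left
        rw [mem_union, mem_union, mem_biUnion, mem_biUnion]
        right; right
        exact ⟨a, ha, by rw [h1]; exact mem_image_of_mem (fun χ => Fm.neg (D d a χ)) hθ⟩
      · exact key h1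
  · cases hb : decide (φ ∈ a) with
    | true =>
      rw [hb, cb, if_pos rfl, top, Fm.sub, mem_insert, mem_biUnion] at h1
      rcases h1 with rfl | ⟨i, _, _⟩
      · right; left; rfl
      · exact i.elim0
    | false =>
      rw [hb, cb, if_neg (by simp), bot, Fm.sub, mem_insert, mem_biUnion] at h1
      rcases h1 with rfl | ⟨i, _, _⟩
      · right; right; left; rfl
      · exact i.elim0

/-- the translations of all members of `𝒱` -/
noncomputable def tl (d : ℕ) (𝒱 : Finset (Fm α)) : Fin 𝒱.toList.length → Fm α :=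
  fun i => ct d (𝒱.toList.get i)

lemma tl_mem {d : ℕ} {𝒱 : Finset (Fm α)} {χ : Fm α} (h : χ ∈ 𝒱) : ct d χ ∈ allSub (tl d 𝒱) := by
  obtain ⟨i, hi⟩ := List.get_of_mem (Finset.mem_toList.mpr h)
  have := mem_allSub (tl d 𝒱) i
  rw [tl, hi] at this
  exact this

lemma tl_card {d w : ℕ} {𝒱 : Finset (Fm α)} (h𝒱 : ∀ ψ ∈ 𝒱, ∀ χ ∈ ψ.sub, χ ∈ 𝒱)
    (hne : 1 ≤ 𝒱.card) (hw : ∀ φ ∈ 𝒱, (deep d φ).card ≤ w) :
    (allSub (tl d 𝒱)).card ≤ 8 * 4 ^ w * 𝒱.card := by
  classical
  have h1 : ∀ φ, φ ∈ 𝒱 → ∃ N : Finset (Fm α), N.card ≤ 1 + 2 ^ w + 2 * (w * 2 ^ w) ∧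
      ∀ χ ∈ (ct d φ).sub, χ ∈ N ∨ χ = top ∨ χ = bot ∨ χ ∈ 𝒱 :=
    fun φ hφ => ct_sub_subset 𝒱 h𝒱 hφ (hw φ hφ)
  choose! N hN1 hN2 using h1
  have h2 : allSub (tl d 𝒱) ⊆ insert top (insert bot (𝒱.biUnion N ∪ 𝒱)) := by
    intro χ hχ
    rw [allSub, mem_biUnion] at hχ
    obtain ⟨i, _, hχ⟩ := hχ
    have hm : 𝒱.toList.get i ∈ 𝒱 := Finset.mem_toList.mp (List.get_mem _ _)
    have h3 := hN2 _ hm χ hχ
    simp only [mem_insert, mem_union, mem_biUnion]
    rcases h3 with h | h | h | h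
    · exact Or.inr (Or.inr (Or.inl ⟨_, hm, h⟩))
    · exact Or.inl h
    · exact Or.inr (Or.inl h)
    · exact Or.inr (Or.inr (Or.inr h))
  have h3 := card_le_card h2
  have h4 := card_insert_le (top : Fm α) (insert bot (𝒱.biUnion N ∪ 𝒱))
  have h5 := card_insert_le (bot : Fm α) (𝒱.biUnion N ∪ 𝒱)
  have h6 := card_union_le (𝒱.biUnion N) 𝒱
  have h7 : (𝒱.biUnion N).card ≤ 𝒱.card * (1 + 2 ^ w + 2 * (w * 2 ^ w)) :=
    card_biUnion_le_card_mul _ _ _ hN1
  have e1 : w * 2 ^ w ≤ 4 ^ w := by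
    have h8 : w ≤ 2 ^ w := Nat.lt_two_pow_self.le
    calc w * 2 ^ w ≤ 2 ^ w * 2 ^ w := Nat.mul_le_mul_right _ h8
      _ = (2 * 2) ^ w := (mul_pow 2 2 w).symm
      _ = 4 ^ w := by norm_num
  have e2 : 2 ^ w ≤ 4 ^ w := Nat.pow_le_pow_left (by norm_num) w
  have e3 : 1 ≤ 4 ^ w := Nat.one_le_pow _ _ (by norm_num)
  have e4 : 1 + 2 ^ w + 2 * (w * 2 ^ w) ≤ 4 * 4 ^ w := by
    generalize w * 2 ^ w = z at e1 ⊢
    omega
  have h8 : (𝒱.biUnion N).card ≤ 𝒱.card * (4 * 4 ^ w) := h7.trans (Nat.mul_le_mul_left _ e4)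
  have h9 : 3 * 𝒱.card ≤ 𝒱.card * (4 * 4 ^ w) := by nlinarith
  calc (allSub (tl d 𝒱)).card ≤ 𝒱.card * (4 * 4 ^ w) + 3 * 𝒱.card := by omega
    _ ≤ 𝒱.card * (4 * 4 ^ w) + 𝒱.card * (4 * 4 ^ w) := by omega
    _ = 8 * 4 ^ w * 𝒱.card := by ring

end Pool.Agent.TH677.DS
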