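import Pool.Agent.TH677.DS.Deep

/-!
Truth values of formulas with few deep subformulas.
-/

set_option autoImplicit false
set_option linter.unusedSectionVars false

namespace Pool.Agent.TH677.DS

open Finset Pool.Agent.TH710.PHP
open Pool.Agent.TH677.SG (orL sub_orL sub_trans' allSub_sub F decide_one F_cons F_neg)

variable {α : Type} {n k K d : ℕ} {ρ : PS n} {g : α → MF n} {𝒰 : Finset (Fm α)}

lemma F_top {y : PS n} : F g k true y top := by
  show W k (mf g (.and 0 _)) true y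
  rw [W_mf_and_true]
  intro _ _ _ _ j
  exact j.elim0

lemma not_F_top {y : PS n} : ¬ F g k false y top := by
  intro h
  change W k (mf g (.and 0 _)) false y at h
  rw [W_mf_and_false] at h
  obtain ⟨j, _⟩ := h
  exact j.elim0

lemma F_bot {y : PS n} : F g k false y bot := by
  show W k (mf g (.or 0 _)) false y
  rw [W_mf_or_false]
  intro _ _ _ _ j
  exact j.elim0

lemma not_F_bot {y : PS n} : ¬ F g k true y bot := by
  intro h
  change W k (mf g (.or 0 _)) true y at h
  rw [W_mf_or_true] at h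
  obtain ⟨j, _⟩ := h
  exact j.elim0

open Classical in
/-- all Boolean values in `a` are right -/
def Settle (g : α → MF n) (k d : ℕ) (y : PS n) (W a : Finset (Fm α)) : Prop :=
  ∀ χ ∈ W, F g k (decide (χ ∈ a)) y (D d a χ)

lemma Settle.mono {W a : Finset (Fm α)} {y z : PS n} (h : Settle g k d y W a) (hyz : y ⊆ z)
    (hz : IsPP z) : Settle g k d z W a := fun χ hχ => W_mono _ (h χ hχ) hyz hz

lemma F_lt {b a : Finset (Fm α)} {χ : Fm α} {y : PS n} :
    F g k false y (lt d b χ) ↔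
      (χ ∈ b ∧ F g k false y (D d b χ)) ∨ (χ ∉ b ∧ F g k true y (D d b χ)) := by
  classical
  unfold lt
  split_ifs with h
  · simp [h]
  · rw [F_neg, Bool.not_false]
    simp [h]

/-- the value of a deep formula -/
lemma val_deep (hG : Good g k K ρ 𝒰) (h𝒰 : ∀ ψ ∈ 𝒰, ∀ χ ∈ ψ.sub, χ ∈ 𝒰) {φ : Fm α}
    (hmem : ct d φ ∈ 𝒰) (hφ : d < φ.depth) {a : Finset (Fm α)} (ha : a ⊆ deep d φ) {y z : PS n}
    (hS : Settle g k d y (deep d φ) a) (hyz : y ⊆ z) (hz : IsPP z) (hρ : ρ ⊆ z)
    (hr : z.card + k + k * K ≤ n) :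
    (F g k true z (ct d φ) → φ ∈ a) ∧ (F g k false z (ct d φ) → φ ∉ a) := by
  classical
  have hSz := hS.mono hyz hz
  have hct : ct d φ = orL ((deep d φ).powerset.toList.map (tm d φ (deep d φ))) := by
    rw [ct, if_pos hφ]
  constructor
  · intro h
    rw [hct] at h
    change W k (mf g (.or _ _)) true z at h
    rw [W_mf_or_true] at h
    obtain ⟨i, hi⟩ := h
    have hmi := List.get_mem ((deep d φ).powerset.toList.map (tm d φ (deep d φ))) i
    generalize ((deep d φ).powerset.toList.map (tm d φ (deep d φ))).get i = ψ at hi hmi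
    obtain ⟨b, hb, rfl⟩ := List.mem_map.mp hmi
    rw [Finset.mem_toList, mem_powerset] at hb
    have htm : tm d φ (deep d φ) b ∈ 𝒰 := h𝒰 _ hmem _ (tm_sub hφ hb)
    have hdep := Nat.mul_le_mul_left k (hG.dep _ htm)
    have hconj : ∀ ψ ∈ (deep d φ).toList.map (lt d b) ++ [cb (decide (φ ∈ b))],
        ¬ F g k false z ψ := by
      intro ψ hψ
      obtain ⟨i, rfl⟩ := List.get_of_mem hψ
      change W k (mf g (.and _ _)) true z at hi
      exact W_mf_and_true.mp hi z hz subset_rfl (by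
        change z.card + k * (mf g (tm d φ (deep d φ) b)).dep ≤ n
        omega) i
    have hlt : ∀ χ ∈ deep d φ, ¬ F g k false z (lt d b χ) := fun χ hχ =>
      hconj _ (by
        rw [List.mem_append, List.mem_map]
        exact Or.inl ⟨χ, Finset.mem_toList.mpr hχ, rfl⟩)
    -- `a` and `b` agree
    have hab : ∀ s, ∀ χ ∈ deep d φ, χ.size = s → (χ ∈ a ↔ χ ∈ b) := by
      intro s
      induction s using Nat.strong_induction_on with
      | _ s ih =>
        intro χ hχ hs
        have hD : D d a χ = D d b χ := D_congr (fun ψ hψ hdψ =>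
          ih ψ.size (by rw [← hs]; exact hψ.size) ψ (deep_closed hχ hψ hdψ) rfl)
        have h1 := hSz χ hχ
        have h2 := hlt χ hχ
        rw [F_lt (a := a), ← hD] at h2
        by_cases hχa : χ ∈ a
        · rw [decide_eq_true hχa] at h1
          refine ⟨fun _ => ?_, fun _ => hχa⟩
          by_contra hχb
          exact h2 (Or.inr ⟨hχb, h1⟩)
        · rw [decide_eq_false hχa] at h1
          refine ⟨fun h => absurd h hχa, fun hχb => ?_⟩
          exact absurd (Or.inl ⟨hχb, h1⟩) h2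
    have hφW : φ ∈ deep d φ := mem_deep.mpr ⟨self_mem_sub φ, hφ⟩
    rw [hab _ φ hφW rfl]
    by_contra hφb
    have h3 := hconj (cb (decide (φ ∈ b))) (by
      rw [List.mem_append, List.mem_singleton]; exact Or.inr rfl)
    rw [decide_eq_false hφb] at h3
    exact h3 F_bot
  · intro h hφa
    obtain ⟨z', h1, h2, h3, h4⟩ := decide_one hG (h𝒰 _ hmem _ (tm_sub hφ ha)) hz hρ (by omega)
    rcases h4 with h4 | h4
    · rw [hct] at h
      change W k (mf g (.or _ _)) false z at h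
      obtain ⟨i, hi⟩ := List.get_of_mem (tm_mem ha)
      have hdep := Nat.mul_le_mul_left k (hG.dep _ hmem)
      rw [hct] at hdep
      refine W_mf_or_false.mp h z' h2 h1 (by
        change z'.card + k * (mf g (orL _)).dep ≤ n
        omega) i ?_
      rw [hi]
      exact h4
    · change W k (mf g (.and _ _)) false z' at h4
      rw [W_mf_and_false] at h4
      obtain ⟨i, hi⟩ := h4
      have hmi := List.get_mem ((deep d φ).toList.map (lt d a) ++ [cb (decide (φ ∈ a))]) i
      generalize ((deep d φ).toList.map (lt d a) ++ [cb (decide (φ ∈ a))]).get i = ψ at hi hmi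
      rw [List.mem_append, List.mem_map, List.mem_singleton] at hmi
      rcases hmi with ⟨χ, hχ, rfl⟩ | rfl
      · rw [Finset.mem_toList] at hχ
        have h5 := hSz.mono h1 h2 χ hχ
        have hDU : D d a χ ∈ 𝒰 := h𝒰 _ hmem _ (D_sub hφ ha hχ)
        change F g k false z' (lt d a χ) at hi
        rw [F_lt (a := a)] at hi
        rcases hi with ⟨hχa, hi⟩ | ⟨hχa, hi⟩
        · rw [decide_eq_true hχa] at h5
          exact F_cons hG hDU h2 (by omega) h5 hi
        · rw [decide_eq_false hχa] at h5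
          exact F_cons hG hDU h2 (by omega) hi h5
      · rw [decide_eq_true hφa] at hi
        exact not_F_top hi

/-- settling a closed set -/
lemma exists_settle (hG : Good g k K ρ 𝒰) : ∀ (w : ℕ) (W : Finset (Fm α)), W.card = w →
    (∀ χ ∈ W, ∀ ψ, Ch ψ χ → d < ψ.depth → ψ ∈ W) →
    (∀ a ⊆ W, ∀ χ ∈ W, D d a χ ∈ 𝒰) → ∀ σ : PS n, IsPP σ → ρ ⊆ σ → σ.card + w * k ≤ n →
    ∃ y, σ ⊆ y ∧ IsPP y ∧ y.card ≤ σ.card + w * k ∧ ∃ a ⊆ W, Settle g k d y W a := by
  classical
  intro w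
  induction w with
  | zero =>
    intro W hW _ _ σ hσ _ _
    rw [card_eq_zero] at hW
    exact ⟨σ, subset_rfl, hσ, by omega, ∅, empty_subset _, fun χ hχ => by
      rw [hW] at hχ; exact absurd hχ (notMem_empty _)⟩
  | succ w ih =>
    intro W hW hcl hU σ hσ hρ hr
    have hne : W.Nonempty := by rw [← card_pos]; omega
    obtain ⟨θ, hθ, hmax⟩ := exists_max_image W (fun χ => χ.size) hne
    have e : (w + 1) * k = w * k + k := by ring
    rw [e] at hr ⊢
    obtain ⟨y, h1, h2, h3, a, ha, hS⟩ := ih (W.erase θ) (by rw [card_erase_of_mem hθ]; omega)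
      (by
        intro χ hχ ψ hψ hd
        rw [mem_erase] at hχ ⊢
        refine ⟨?_, hcl χ hχ.2 ψ hψ hd⟩
        rintro rfl
        have := hψ.size
        have := hmax χ hχ.2
        omega)
      (fun a ha χ hχ => hU a (ha.trans (erase_subset _ _)) χ (mem_of_mem_erase hχ))
      σ hσ hρ (by omega)
    have haW : a ⊆ W := ha.trans (erase_subset _ _)
    have hθa : θ ∉ a := fun h => absurd (ha h) (notMem_erase _ _)
    obtain ⟨z, g1, g2, g3, g4⟩ := decide_one hG (hU a haW θ hθ) h2 (hρ.trans h1) (by omega)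
    have hD : ∀ b : Finset (Fm α), (b = a ∨ b = insert θ a) → ∀ χ ∈ W, D d b χ = D d a χ := by
      intro b hb χ hχ
      refine D_congr (fun ψ hψ hd => ?_)
      rcases hb with rfl | rfl
      · rfl
      · rw [mem_insert]
        constructor
        · rintro (rfl | h)
          · have := hψ.size
            have := hmax χ hχ
            omega
          · exact h
        · exact fun h => Or.inr h
    have hfin : ∀ b : Finset (Fm α), (b = a ∨ b = insert θ a) →
        F g k (decide (θ ∈ b)) z (D d a θ) → Settle g k d z W b := by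
      intro b hb hθb χ hχ
      rw [hD b hb χ hχ]
      by_cases hχθ : χ = θ
      · rw [hχθ]; exact hθb
      · have h5 := hS χ (mem_erase.mpr ⟨hχθ, hχ⟩)
        have h6 : decide (χ ∈ b) = decide (χ ∈ a) := by
          rw [decide_eq_decide]
          rcases hb with rfl | rfl
          · rfl
          · rw [mem_insert]; simp [hχθ]
        rw [h6]
        exact W_mono _ h5 g1 g2
    rcases g4 with g4 | g4
    · refine ⟨z, h1.trans g1, g2, by omega, insert θ a, insert_subset hθ haW,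
        hfin _ (Or.inr rfl) ?_⟩
      rw [decide_eq_true (mem_insert_self _ _)]
      exact g4
    · refine ⟨z, h1.trans g1, g2, by omega, a, haW, hfin _ (Or.inl rfl) ?_⟩
      rw [decide_eq_false hθa]
      exact g4

/-- the closed set of a formula -/
noncomputable def cl (d : ℕ) (φ : Fm α) : Finset (Fm α) := by
  classical exact insert φ (deep d φ)

lemma mem_cl {φ χ : Fm α} : χ ∈ cl d φ ↔ χ = φ ∨ χ ∈ deep d φ := by
  classical
  rw [cl, mem_insert]

lemma cl_card {w : ℕ} {φ : Fm α} (hw : (deep d φ).card ≤ w) : (cl d φ).card ≤ w + 1 := by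
  classical
  rw [cl]
  exact (card_insert_le _ _).trans (Nat.succ_le_succ hw)

/-- standing assumptions -/
structure Std (g : α → MF n) (k K d w : ℕ) (ρ : PS n) (𝒰 𝒱 : Finset (Fm α)) : Prop where
  good : Good g k K ρ 𝒰
  sub : ∀ ψ ∈ 𝒰, ∀ χ ∈ ψ.sub, χ ∈ 𝒰
  vsub : ∀ ψ ∈ 𝒱, ∀ χ ∈ ψ.sub, χ ∈ 𝒱
  mem : ∀ ψ ∈ 𝒱, ct d ψ ∈ 𝒰
  few : ∀ ψ ∈ 𝒱, (deep d ψ).card ≤ w

variable {w : ℕ} {𝒱 : Finset (Fm α)}

lemma ct_shallow {φ : Fm α} (h : ¬ d < φ.depth) : ct d φ = φ := by
  rw [ct, if_neg h]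

lemma D_memU (hS : Std g k K d w ρ 𝒰 𝒱) {φ : Fm α} (hφ : φ ∈ 𝒱) {a : Finset (Fm α)}
    (ha : a ⊆ cl d φ) {χ : Fm α} (hχ : χ ∈ cl d φ) : D d a χ ∈ 𝒰 := by
  classical
  by_cases h : d < φ.depth
  · have hcl : cl d φ = deep d φ := by
      ext ψ
      rw [mem_cl]
      constructor
      · rintro (rfl | h1)
        · exact mem_deep.mpr ⟨self_mem_sub _, h⟩
        · exact h1
      · exact fun h1 => Or.inr h1
    rw [hcl] at ha hχ
    exact hS.sub _ (hS.mem φ hφ) _ (D_sub h ha hχ)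
  · rw [mem_cl, deep_shallow (by omega)] at hχ
    rcases hχ with rfl | hχ
    · rw [D_shallow (by omega), ← ct_shallow h]
      exact hS.mem _ hφ
    · exact absurd hχ (notMem_empty _)

/-- every formula can be handled -/
lemma exists_handled (hS : Std g k K d w ρ 𝒰 𝒱) {φ : Fm α} (hφ : φ ∈ 𝒱) {σ : PS n} (hσ : IsPP σ)
    (hρ : ρ ⊆ σ) (hr : σ.card + (w + 1) * k ≤ n) :
    ∃ y, σ ⊆ y ∧ IsPP y ∧ y.card ≤ σ.card + (w + 1) * k ∧
      ∃ a ⊆ cl d φ, Settle g k d y (cl d φ) a := by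
  have hc := Nat.mul_le_mul_right k (cl_card (hS.few φ hφ))
  obtain ⟨y, h1, h2, h3, h4⟩ := exists_settle (d := d) hS.good (cl d φ).card (cl d φ) rfl (by
    intro χ hχ ψ hψ hd
    rw [mem_cl] at hχ ⊢
    right
    rcases hχ with rfl | hχ
    · exact mem_deep.mpr ⟨hψ.sub, hd⟩
    · exact deep_closed hχ hψ hd) (fun a ha χ hχ => D_memU hS hφ ha hχ) σ hσ hρ (by omega)
  exact ⟨y, h1, h2, by omega, h4⟩

open Classical in
/-- truth value at `y`: can the formula become true? -/
noncomputable def V (g : α → MF n) (k K d : ℕ) (y : PS n) (χ : Fm α) : Bool :=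
  decide (∃ y', y ⊆ y' ∧ IsPP y' ∧ y'.card + (k * K + 2 * k) ≤ n ∧ F g k true y' (ct d χ))

lemma V_iff {y : PS n} {χ : Fm α} : V g k K d y χ = true ↔
    ∃ y', y ⊆ y' ∧ IsPP y' ∧ y'.card + (k * K + 2 * k) ≤ n ∧ F g k true y' (ct d χ) := by
  classical
  rw [V, decide_eq_true_eq]

/-- the value of a handled formula -/
lemma V_handled (hS : Std g k K d w ρ 𝒰 𝒱) {φ : Fm α} (hφ : φ ∈ 𝒱) {a : Finset (Fm α)}
    {y : PS n} (hy : IsPP y) (hρ : ρ ⊆ y) (hr : y.card + 3 * k + k * K ≤ n)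
    (h : Settle g k d y (cl d φ) a) : V g k K d y φ = true ↔ φ ∈ a := by
  classical
  by_cases hd : d < φ.depth
  · -- deep
    have hS' : Settle g k d y (deep d φ) (a ∩ deep d φ) := by
      intro χ hχ
      have h1 := h χ (mem_cl.mpr (Or.inr hχ))
      have h2 : D d (a ∩ deep d φ) χ = D d a χ := D_congr (fun ψ hψ hdψ => by
        rw [mem_inter]
        exact ⟨fun h => h.1, fun h => ⟨h, deep_closed hχ hψ hdψ⟩⟩)
      have h3 : decide (χ ∈ a ∩ deep d φ) = decide (χ ∈ a) := by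
        rw [decide_eq_decide, mem_inter]
        exact ⟨fun h => h.1, fun h => ⟨h, hχ⟩⟩
      rw [h2, h3]
      exact h1
    have hφd : φ ∈ deep d φ := mem_deep.mpr ⟨self_mem_sub _, hd⟩
    have hiff : φ ∈ a ∩ deep d φ ↔ φ ∈ a := by
      rw [mem_inter]; exact ⟨fun h => h.1, fun h => ⟨h, hφd⟩⟩
    rw [← hiff, V_iff]
    constructor
    · rintro ⟨y', h1, h2, h3, h4⟩
      exact (val_deep hS.good hS.sub (hS.mem φ hφ) hd inter_subset_right hS' h1 h2
        (hρ.trans h1) (by omega)).1 h4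
    · intro hφa
      obtain ⟨z, h1, h2, h3, h4⟩ := decide_one hS.good (hS.mem φ hφ) hy hρ (by omega)
      rcases h4 with h4 | h4
      · exact ⟨z, h1, h2, by omega, h4⟩
      · exact absurd hφa ((val_deep hS.good hS.sub (hS.mem φ hφ) hd inter_subset_right hS' h1 h2
          (hρ.trans h1) (by omega)).2 h4)
  · -- shallow
    have h1 := h φ (mem_cl.mpr (Or.inl rfl))
    rw [D_shallow (by omega)] at h1
    rw [V_iff]
    constructor
    · rintro ⟨y', g1, g2, g3, g4⟩
      by_contra hφa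
      rw [decide_eq_false hφa] at h1
      have hm := hS.mem φ hφ
      rw [ct_shallow hd] at g4 hm
      exact F_cons hS.good hm g2 (by omega) g4 (W_mono _ h1 g1 g2)
    · intro hφa
      rw [decide_eq_true hφa] at h1
      exact ⟨y, subset_rfl, hy, by omega, by rw [ct_shallow hd]; exact h1⟩

/-- a child of a handled formula -/
lemma child_handled {φ ψ : Fm α} {a : Finset (Fm α)} {y : PS n}
    (h : Settle g k d y (cl d φ) a) (hψ : Ch ψ φ) (hd : d < ψ.depth) :
    Settle g k d y (cl d ψ) a := by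
  intro χ hχ
  apply h
  rw [mem_cl] at hχ ⊢
  right
  rcases hχ with rfl | hχ
  · exact mem_deep.mpr ⟨hψ.sub, hd⟩
  · exact deep_mono hψ.sub hχ

lemma child_true (hS : Std g k K d w ρ 𝒰 𝒱) {φ ψ : Fm α} (hφ : φ ∈ 𝒱) {a : Finset (Fm α)}
    {y z : PS n} (h : Settle g k d y (cl d φ) a) (hψ : Ch ψ φ) (hE : F g k true y (E d a ψ))
    (hyz : y ⊆ z) (hz : IsPP z) (hρ : ρ ⊆ z) (hr : z.card + 3 * k + k * K ≤ n) :
    V g k K d z ψ = true := by
  classical
  have hψV : ψ ∈ 𝒱 := hS.vsub φ hφ ψ hψ.sub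
  unfold E at hE
  split_ifs at hE with hd
  · rw [V_handled hS hψV hz hρ hr ((child_handled h hψ hd).mono hyz hz)]
    by_contra hψa
    rw [decide_eq_false hψa] at hE
    exact not_F_bot hE
  · rw [V_iff]
    exact ⟨z, subset_rfl, hz, by omega, by rw [ct_shallow hd]; exact W_mono _ hE hyz hz⟩

lemma child_false (hS : Std g k K d w ρ 𝒰 𝒱) {φ ψ : Fm α} (hφ : φ ∈ 𝒱) {a : Finset (Fm α)}
    {y z : PS n} (h : Settle g k d y (cl d φ) a) (hψ : Ch ψ φ) (hE : F g k false y (E d a ψ))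
    (hyz : y ⊆ z) (hz : IsPP z) (hρ : ρ ⊆ z) (hr : z.card + 3 * k + k * K ≤ n) :
    V g k K d z ψ = false := by
  classical
  have hψV : ψ ∈ 𝒱 := hS.vsub φ hφ ψ hψ.sub
  rw [← Bool.not_eq_true]
  unfold E at hE
  split_ifs at hE with hd
  · rw [V_handled hS hψV hz hρ hr ((child_handled h hψ hd).mono hyz hz)]
    intro hψa
    rw [decide_eq_true hψa] at hE
    exact not_F_top hE
  · rw [V_iff]
    rintro ⟨y', g1, g2, g3, g4⟩
    have hm := hS.mem ψ hψV
    rw [ct_shallow hd] at g4 hm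
    exact F_cons hS.good hm g2 (by omega) g4 (W_mono _ hE (hyz.trans g1) g2)

/-- a true child makes `E` true somewhere -/
lemma child_poss (hS : Std g k K d w ρ 𝒰 𝒱) {φ ψ : Fm α} (hφ : φ ∈ 𝒱) {a : Finset (Fm α)}
    {y : PS n} (h : Settle g k d y (cl d φ) a) (hψ : Ch ψ φ) (hy : IsPP y) (hρ : ρ ⊆ y)
    (hr : y.card + 3 * k + k * K ≤ n) (hV : V g k K d y ψ = true) :
    ∃ y', y ⊆ y' ∧ IsPP y' ∧ y'.card + k * K ≤ n ∧ F g k true y' (E d a ψ) := by
  classical
  have hψV : ψ ∈ 𝒱 := hS.vsub φ hφ ψ hψ.sub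
  unfold E
  split_ifs with hd
  · rw [V_handled hS hψV hy hρ hr (child_handled h hψ hd)] at hV
    rw [decide_eq_true hV]
    exact ⟨y, subset_rfl, hy, by omega, F_top⟩
  · rw [V_iff] at hV
    obtain ⟨y', g1, g2, g3, g4⟩ := hV
    rw [ct_shallow hd] at g4
    exact ⟨y', g1, g2, by omega, g4⟩

lemma child_poss' (hS : Std g k K d w ρ 𝒰 𝒱) {φ ψ : Fm α} (hφ : φ ∈ 𝒱) {a : Finset (Fm α)}
    {y : PS n} (h : Settle g k d y (cl d φ) a) (hψ : Ch ψ φ) (hy : IsPP y) (hρ : ρ ⊆ y)
    (hr : y.card + 3 * k + k * K ≤ n) (hV : V g k K d y ψ = false) :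
    ∃ y', y ⊆ y' ∧ IsPP y' ∧ y'.card + k * K ≤ n ∧ F g k false y' (E d a ψ) := by
  classical
  have hψV : ψ ∈ 𝒱 := hS.vsub φ hφ ψ hψ.sub
  rw [← Bool.not_eq_true] at hV
  unfold E
  split_ifs with hd
  · rw [V_handled hS hψV hy hρ hr (child_handled h hψ hd)] at hV
    rw [decide_eq_false hV]
    exact ⟨y, subset_rfl, hy, by omega, F_bot⟩
  · have hm := hS.mem ψ hψV
    obtain ⟨z, h1, h2, h3, h4⟩ := decide_one hS.good hm hy hρ (by omega)
    rcases h4 with h4 | h4
    · exact absurd (V_iff.mpr ⟨z, h1, h2, by omega, h4⟩) hV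
    · rw [ct_shallow hd] at h4
      exact ⟨z, h1, h2, by omega, h4⟩

/-- handled formulas respect their outermost connective -/
lemma resp (hS : Std g k K d w ρ 𝒰 𝒱) {φ : Fm α} (hφ : φ ∈ 𝒱) {a : Finset (Fm α)}
    (ha : a ⊆ cl d φ) {y : PS n} (hy : IsPP y) (hρ : ρ ⊆ y) (hr : y.card + 3 * k + k * K ≤ n)
    (h : Settle g k d y (cl d φ) a) : RespAt (V g k K d y) φ := by
  classical
  have hV := V_handled hS hφ hy hρ hr h
  have hD := h φ (mem_cl.mpr (Or.inl rfl))
  have hDU : D d a φ ∈ 𝒰 := D_memU hS hφ ha (mem_cl.mpr (Or.inl rfl))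
  have hdep := Nat.mul_le_mul_left k (hS.good.dep _ hDU)
  cases φ with
  | var x => trivial
  | neg ψ =>
    show V g k K d y (.neg ψ) = !(V g k K d y ψ)
    rw [D, F_neg] at hD
    by_cases hφa : Fm.neg ψ ∈ a
    · rw [decide_eq_true hφa, Bool.not_true] at hD
      rw [hV.mpr hφa, child_false hS hφ h rfl hD subset_rfl hy hρ hr]
      rfl
    · rw [decide_eq_false hφa, Bool.not_false] at hD
      have h1 : V g k K d y (.neg ψ) = false := by
        rw [← Bool.not_eq_true, hV]; exact hφa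
      rw [h1, child_true hS hφ h rfl hD subset_rfl hy hρ hr]
      rfl
  | and t φs =>
    show V g k K d y (.and t φs) = true ↔ ∀ j, V g k K d y (φs j) = true
    rw [hV]
    rw [D] at hD hdep
    constructor
    · intro hφa j
      rw [decide_eq_true hφa] at hD
      by_contra hj
      rw [Bool.not_eq_true] at hj
      obtain ⟨y', g1, g2, g3, g4⟩ := child_poss' hS hφ h ⟨j, rfl⟩ hy hρ hr hj
      exact W_mf_and_true.mp hD y' g2 g1 (by omega) j g4
    · intro hall
      by_contra hφa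
      rw [decide_eq_false hφa] at hD
      change W k (mf g (.and t _)) false y at hD
      rw [W_mf_and_false] at hD
      obtain ⟨j, hj⟩ := hD
      have := child_false hS hφ h ⟨j, rfl⟩ hj subset_rfl hy hρ hr
      rw [hall j] at this
      exact Bool.noConfusion this
  | or t φs =>
    show V g k K d y (.or t φs) = true ↔ ∃ j, V g k K d y (φs j) = true
    rw [hV]
    rw [D] at hD hdep
    constructor
    · intro hφa
      rw [decide_eq_true hφa] at hD
      change W k (mf g (.or t _)) true y at hD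
      rw [W_mf_or_true] at hD
      obtain ⟨j, hj⟩ := hD
      exact ⟨j, child_true hS hφ h ⟨j, rfl⟩ hj subset_rfl hy hρ hr⟩
    · rintro ⟨j, hj⟩
      by_contra hφa
      rw [decide_eq_false hφa] at hD
      obtain ⟨y', g1, g2, g3, g4⟩ := child_poss hS hφ h ⟨j, rfl⟩ hy hρ hr hj
      exact W_mf_or_false.mp hD y' g2 g1 (by omega) j g4

/-- the line `i` is false at some small matching -/
def Bad (g : α → MF n) (k d : ℕ) (ρ : PS n) {T : ℕ} (L : Fin T → Fm α) (i : Fin T) : Prop :=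
  ∃ σ, IsPP σ ∧ ρ ⊆ σ ∧ σ.card ≤ ρ.card + k ∧ F g k false σ (ct d (L i))

lemma exists_handled_all (hS : Std g k K d w ρ 𝒰 𝒱) (Q : Finset (Fm α)) (hQ : Q ⊆ 𝒱) (π : PS n)
    (hπ : IsPP π) (hρ : ρ ⊆ π) (hr : π.card + Q.card * ((w + 1) * k) ≤ n) :
    ∃ y, π ⊆ y ∧ IsPP y ∧ y.card ≤ π.card + Q.card * ((w + 1) * k) ∧
      ∀ φ ∈ Q, ∃ a ⊆ cl d φ, Settle g k d y (cl d φ) a := by
  classical
  induction Q using Finset.induction_on with
  | empty => exact ⟨π, subset_rfl, hπ, by omega, by simp⟩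
  | insert b Q hb ih =>
    rw [card_insert_of_notMem hb, Nat.add_mul, one_mul] at hr ⊢
    obtain ⟨y, h1, h2, h3, h4⟩ := ih ((subset_insert _ _).trans hQ) (by omega)
    obtain ⟨z, g1, g2, g3, g4⟩ := exists_handled hS (hQ (mem_insert_self _ _)) h2
      (hρ.trans h1) (by omega)
    refine ⟨z, h1.trans g1, g2, by omega, ?_⟩
    intro φ hφ
    rcases mem_insert.mp hφ with rfl | hφ
    · exact g4
    · obtain ⟨a, ha, hs⟩ := h4 φ hφ
      exact ⟨a, ha, hs.mono g1 g2⟩

lemma exists_lines (hS : Std g k K d w ρ 𝒰 𝒱) {T : ℕ} {L : Fin T → Fm α}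
    (hL : ∀ j, L j ∈ 𝒱) (P : Finset (Fin T)) (hP : ∀ j ∈ P, ¬ Bad g k d ρ L j) (π : PS n)
    (hπ : IsPP π) (hρ : ρ ⊆ π) (hr : π.card + P.card * k ≤ n) :
    ∃ y, π ⊆ y ∧ IsPP y ∧ y.card ≤ π.card + P.card * k ∧
      ∀ j ∈ P, F g k true y (ct d (L j)) := by
  classical
  induction P using Finset.induction_on with
  | empty => exact ⟨π, subset_rfl, hπ, by omega, by simp⟩
  | insert b P hb ih =>
    rw [card_insert_of_notMem hb, Nat.add_mul, one_mul] at hr ⊢
    obtain ⟨y, h1, h2, h3, h4⟩ := ih (fun j hj => hP j (mem_insert_of_mem hj)) (by omega)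
    obtain ⟨z, g1, g2, g3, τ, g4⟩ := exists_dec (g := g) (k := k) (ρ := ρ) (ct d (L b)) y h2
      (by omega)
    obtain ⟨a1, a2, a3, a4⟩ := tr_rep (hS.good.tree _ (hS.mem _ (hL b))) z g2
      (hρ.trans (h1.trans g1)) τ g4
    refine ⟨z, h1.trans g1, g2, by omega, ?_⟩
    intro j hj
    rcases mem_insert.mp hj with rfl | hj
    · rcases a4 with h | h
      · exact W_mono _ h a2 g2
      · exact absurd ⟨τ, g2.mono a2, a1, a3, h⟩ (hP j (mem_insert_self _ _))
    · exact W_mono _ (h4 j hj) g1 g2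

/-- local inferences preserve truth -/
lemma local_contra {c T : ℕ} {L : Fin T → Fm α} (hS : Std g k K d w ρ 𝒰 (allSub L))
    (hroom : ρ.card + (k + (w + 1) * k) + c * ((w + 1) * k) + c * k + 3 * k + k * K ≤ n)
    {i : Fin T} {H : (Fm α → Bool) → Prop}
    (hloc : Local c L i H) (ih : ∀ j < i, ¬ Bad g k d ρ L j) {π : PS n} (hπ : IsPP π)
    (hρπ : ρ ⊆ π) (hπc : π.card ≤ ρ.card + (k + (w + 1) * k)) (hW : F g k false π (ct d (L i)))
    (hH : ∀ y, IsPP y → π ⊆ y → y.card + 3 * k + k * K ≤ n → H (V g k K d y)) : False := by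
  classical
  obtain ⟨P, Q, hP, hQ, hlt, hQU, hinf⟩ := hloc
  have eQ : Q.card * ((w + 1) * k) ≤ c * ((w + 1) * k) := Nat.mul_le_mul_right _ hQ
  have eP : P.card * k ≤ c * k := Nat.mul_le_mul_right _ hP
  obtain ⟨y1, h1, h2, h3, h4⟩ := exists_handled_all hS Q hQU π hπ hρπ (by omega)
  obtain ⟨y, g1, g2, g3, g4⟩ := exists_lines hS (mem_allSub L) P (fun j hj => ih j (hlt j hj)) y1
    h2 (hρπ.trans h1) (by omega)
  have hπy : π ⊆ y := h1.trans g1
  have hρy : ρ ⊆ y := hρπ.trans hπy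
  have hres : V g k K d y (L i) = true := by
    refine hinf (V g k K d y) ?_ ?_ ?_
    · intro χ hχ
      obtain ⟨a, ha, hs⟩ := h4 χ hχ
      exact resp hS (hQU hχ) ha g2 hρy (by omega) (hs.mono g1 g2)
    · intro j hj
      exact V_iff.mpr ⟨y, subset_rfl, g2, by omega, g4 j hj⟩
    · exact hH y g2 hπy (by omega)
  obtain ⟨y', f1, f2, f3, f4⟩ := V_iff.mp hres
  exact F_cons hS.good (hS.mem _ (mem_allSub L i)) f2 (by omega) f4
    (W_mono _ hW (hπy.trans f1) f2)

lemma V_anti {y z : PS n} (hyz : y ⊆ z) {χ : Fm α} (h : V g k K d y χ = false) :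
    V g k K d z χ = false := by
  rw [← Bool.not_eq_true] at h ⊢
  intro h1
  apply h
  rw [V_iff] at h1 ⊢
  obtain ⟨y', g1, g2⟩ := h1
  exact ⟨y', hyz.trans g1, g2⟩

/-- no line is false at a small matching -/
theorem no_bad {c T : ℕ} {L : Fin T → Fm α} (hS : Std g k K d w ρ 𝒰 (allSub L))
    (hroom : ρ.card + (k + (w + 1) * k) + c * ((w + 1) * k) + c * k + 3 * k + k * K ≤ n)
    (hL : ∀ i, (¬ Bad g k d ρ L i) ∨ Inferred c L i) : ∀ i, ¬ Bad g k d ρ L i := by
  classical
  suffices H : ∀ m : ℕ, ∀ i : Fin T, i.val = m → ¬ Bad g k d ρ L i from fun i => H i.val i rfl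
  intro m
  induction m using Nat.strong_induction_on with
  | _ m ihm =>
    intro i him hbad
    have ih : ∀ j < i, ¬ Bad g k d ρ L j := fun j hj => ihm j.val (by rw [← him]; exact hj) j rfl
    rcases hL i with h | h
    · exact h hbad
    obtain ⟨σ, s1, s2, s3, s4⟩ := hbad
    rcases h with h | ⟨t, φs, hmem, hA, hB⟩ | ⟨t, φs, hmem, hA, hB⟩
    · exact local_contra hS hroom h ih s1 s2 (by omega) s4 (fun _ _ _ _ => trivial)
    · obtain ⟨y, h1, h2, h3, a, ha, hs⟩ := exists_handled hS hmem s1 s2 (by omega)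
      have hD := hs _ (mem_cl.mpr (Or.inl rfl))
      by_cases hφa : Fm.and t φs ∈ a
      · refine local_contra hS hroom hA ih h2 (s2.trans h1) (by omega) (W_mono _ s4 h1 h2)
          (fun z hz hyz hr => ?_)
        exact (V_handled hS hmem hz (s2.trans (h1.trans hyz)) hr (hs.mono hyz hz)).mpr hφa
      · rw [decide_eq_false hφa, D] at hD
        change W k (mf g (.and t _)) false y at hD
        rw [W_mf_and_false] at hD
        obtain ⟨j, hj⟩ := hD
        refine local_contra hS hroom (hB j) ih h2 (s2.trans h1) (by omega) (W_mono _ s4 h1 h2)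
          (fun z hz hyz hr => ?_)
        exact child_false hS hmem hs ⟨j, rfl⟩ hj hyz hz (s2.trans (h1.trans hyz)) hr
    · obtain ⟨y, h1, h2, h3, a, ha, hs⟩ := exists_handled hS hmem s1 s2 (by omega)
      have hD := hs _ (mem_cl.mpr (Or.inl rfl))
      by_cases hφa : Fm.or t φs ∈ a
      · rw [decide_eq_true hφa, D] at hD
        change W k (mf g (.or t _)) true y at hD
        rw [W_mf_or_true] at hD
        obtain ⟨j, hj⟩ := hD
        refine local_contra hS hroom (hB j) ih h2 (s2.trans h1) (by omega) (W_mono _ s4 h1 h2)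
          (fun z hz hyz hr => ?_)
        exact child_true hS hmem hs ⟨j, rfl⟩ hj hyz hz (s2.trans (h1.trans hyz)) hr
      · refine local_contra hS hroom hA ih h2 (s2.trans h1) (by omega) (W_mono _ s4 h1 h2)
          (fun z hz hyz hr => ?_)
        rw [← Bool.not_eq_true,
          V_handled hS hmem hz (s2.trans (h1.trans hyz)) hr (hs.mono hyz hz)]
        exact hφa

end Pool.Agent.TH677.DS
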