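import Pool.Agent.TH677.DS.Eval

/-!
The lower bound for Frege refutations whose lines have few deep subformulas.
-/

set_option autoImplicit false
set_option linter.unusedSectionVars false

namespace Pool.Agent.TH677.DS

open Finset Pool.Agent.TH710.PHP
open Pool.Agent.TH677.SG (sub_trans' allSub_sub F F_cons)

/-- a restriction after which all formulas have shallow trees, with more room -/
theorem exists_good (dd n Y M : ℕ) (hY : 1 ≤ Y) (hM : 32 ≤ M)
    (hn : (M * (2 * Y)) ^ (12 ^ dd) ≤ n) (α : Type) (g : α → MF n) (hg : ∀ a, Atomic (g a))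
    (T : ℕ) (L : Fin T → Fm α) (hdepth : ∀ i, (L i).depth ≤ dd)
    (hcon : 3 * (allSub L).card ≤ 16 ^ Y) :
    ∃ ρ : PS n, IsPP ρ ∧ Good g (2 * Y) dd ρ (allSub L) ∧ ρ.card + M * (2 * Y) ≤ n := by
  classical
  have hg0 : ∀ a, (g a).dep = 0 := by
    intro a
    have h := hg a
    cases hga : g a with
    | cst b => rfl
    | var e => rfl
    | neg φ => rw [hga] at h; exact h.elim
    | or t φs => rw [hga] at h; exact h.elim
  set k : ℕ := 2 * Y with hk
  set m : ℕ := M * k with hm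
  have hk2 : 2 ≤ k := by omega
  have hm32 : 32 ≤ m := by nlinarith
  have hmk : k ≤ m := by nlinarith
  have hm1 : 1 ≤ m := by omega
  -- the sizes
  let Asz : ℕ → ℕ := fun h => if h = 0 then n else m ^ (12 ^ (dd - h))
  have hAm : ∀ h, 1 ≤ h → m ≤ Asz h := by
    intro h hh
    simp only [Asz, if_neg (show h ≠ 0 by omega)]
    exact Nat.le_self_pow (by positivity) m
  have hAstep : ∀ h < dd, Asz (h + 1) ^ 12 ≤ Asz h := by
    intro h hh
    have e1 : Asz (h + 1) = m ^ (12 ^ (dd - (h + 1))) := by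
      simp only [Asz, if_neg (show h + 1 ≠ 0 by omega)]
    have e2 : 12 ^ (dd - (h + 1)) * 12 = 12 ^ (dd - h) := by
      rw [← pow_succ]; congr 1; omega
    rw [e1, ← pow_mul, e2]
    by_cases h0 : h = 0
    · subst h0
      simp only [Asz, if_true, Nat.sub_zero]
      exact hn
    · simp only [Asz, if_neg h0]
      exact le_rfl
  have hmn : m ≤ n := by
    refine le_trans ?_ hn
    exact Nat.le_self_pow (by positivity) m
  have hAn : ∀ h ≤ dd, Asz h ≤ n := by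
    intro h hh
    by_cases h0 : h = 0
    · simp only [Asz, h0, if_true]; exact le_rfl
    · simp only [Asz, if_neg h0]
      refine le_trans ?_ hn
      exact Nat.pow_le_pow_right hm1 (Nat.pow_le_pow_right (by omega) (by omega))
  let b : ℕ → ℕ := fun h => n - Asz h
  have hb0 : b 0 = 0 := by simp [b, Asz]
  have hstep : ∀ h < dd, b (h + 1) ≤ n ∧ b h ≤ b (h + 1) ∧
      16 * (2 * k * ((2 * n + 1 - 2 * b (h + 1)) ^ 2) ^ 2 * (2 * n + 1 - 2 * b (h + 1)) ^ 2) ≤
        b (h + 1) - b h := by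
    intro h hh
    have hm' := hAm (h + 1) (by omega)
    exact num_step (hm32.trans hm') (hmk.trans hm') (hAstep h hh) (hAn h (by omega))
  have hfamcard : (fam g (allSub L)).card ≤ 16 ^ Y := (fam_card _).trans hcon
  obtain ⟨ρ, hρ1, hρ2, hρ3⟩ := levels (k := k) (D := Y) hY rfl
    (fam g (allSub L)) (fam_closed hg (allSub_closed L)) hfamcard b hb0 dd
    hstep dd le_rfl
  have hdep := depth_allSub L hdepth
  refine ⟨ρ, hρ1, ⟨allSub_closed L, ?_, ?_⟩, ?_⟩
  · intro φ hφ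
    exact (dep_mf hg0 φ).trans (hdep φ hφ)
  · intro φ hφ
    exact hρ3 _ (mem_fam hφ) ((dep_mf hg0 φ).trans (hdep φ hφ))
  · rw [hρ2]
    by_cases hd0 : dd = 0
    · rw [hd0, hb0]
      omega
    · have h1 : Asz dd = m := by
        simp only [Asz, if_neg hd0, Nat.sub_self, pow_zero, pow_one]
      simp only [b, h1]
      omega

/-- replacing deep children keeps a clause of the pigeonhole principle -/
lemma clause_D {m n d : ℕ} {φ : Fm (Fin m × Fin n)} (a : Finset (Fm (Fin m × Fin n)))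
    (h : IsClause φ) : IsClause (D d a φ) := by
  classical
  obtain ⟨t, φs, rfl, h⟩ := h
  have hv : ∀ x : Fin m × Fin n, E d a (.var x) = .var x := by
    intro x
    rw [E, if_neg (by simp [Fm.depth, Fm.alt])]
  have hnv : ∀ x : Fin m × Fin n, E d a (.neg (.var x)) = .neg (.var x) := by
    intro x
    rw [E, if_neg (by simp [Fm.depth, Fm.alt])]
  refine ⟨t, fun j => E d a (φs j), rfl, ?_⟩
  rcases h with ⟨i, hi⟩ | ⟨i, i', j, hne, ⟨l, hl⟩, l', hl'⟩
  · left
    refine ⟨i, fun j => ?_⟩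
    obtain ⟨l, hl⟩ := hi j
    exact ⟨l, by simp only [hl]; exact hv _⟩
  · right
    exact ⟨i, i', j, hne, ⟨l, by simp only [hl]; exact hnv _⟩, l', by simp only [hl']; exact hnv _⟩

/-- lower bound with explicit parameters -/
theorem lower (c d : ℕ) (hd : 1 ≤ d) : ∃ C : ℕ, 0 < C ∧ ∀ m n κ B Y w : ℕ, 1 ≤ Y → B * κ ≤ n →
    m ≤ n + B → (C * Y * (w + 1)) ^ (12 ^ (d + 3)) ≤ κ → ∀ (A : Fm (Fin m × Fin n) → Prop),
    (∀ φ, A φ → (deep d φ).card ≤ w) →
    ∀ R : Refutation c A, 16 ^ Y < 3 * (8 * 4 ^ w * (allSub R.line).card) := by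
  classical
  refine ⟨2 * (2 * c + d + 43), by omega, ?_⟩
  intro m n κ B Y w hY hB hm hκ A hA R
  have hκ1 : 1 ≤ κ := by
    refine le_trans ?_ hκ
    exact Nat.one_le_pow _ _ (by positivity)
  set 𝒱 := allSub R.line with h𝒱
  have hvsub : ∀ ψ ∈ 𝒱, ∀ χ ∈ ψ.sub, χ ∈ 𝒱 := allSub_sub R.line
  have hfew : ∀ ψ ∈ 𝒱, (deep d ψ).card ≤ w := by
    intro ψ hψ
    rw [h𝒱, allSub, mem_biUnion] at hψ
    obtain ⟨i, _, hψ⟩ := hψ
    exact (card_le_card (deep_mono hψ)).trans (hA _ (R.mem i))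
  have hne : 1 ≤ 𝒱.card := by
    obtain ⟨i, _⟩ := R.contra
    exact card_pos.mpr ⟨_, mem_allSub R.line i⟩
  have hcard := tl_card (d := d) hvsub hne hfew
  by_contra hcon
  push Not at hcon
  have hcon' : 3 * (allSub (tl d 𝒱)).card ≤ 16 ^ Y := by
    refine le_trans ?_ hcon
    exact Nat.mul_le_mul_left 3 hcard
  set M : ℕ := (2 * c + d + 43) * (w + 1) with hM
  have hM32 : 32 ≤ M := by rw [hM]; nlinarith
  have hMY : M * (2 * Y) = 2 * (2 * c + d + 43) * Y * (w + 1) := by rw [hM]; ring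
  obtain ⟨ρ, hρ1, hG, hroom⟩ := exists_good (d + 3) κ Y M hY hM32 (by rw [hMY]; exact hκ)
    (Fin m × Fin n) (gmap m n κ B hκ1) (gmap_atomic m n κ B hκ1) _ (tl d 𝒱)
    (fun i => depth_ct hd _) hcon'
  set k : ℕ := 2 * Y with hk
  have hS : Std (gmap m n κ B hκ1) k (d + 3) d w ρ (allSub (tl d 𝒱)) (allSub R.line) :=
    ⟨hG, allSub_sub _, hvsub, fun ψ hψ => tl_mem hψ, hfew⟩
  have eM : M * k = (w + 1) * k + c * ((w + 1) * k) + c * ((w + 1) * k) + (d + 42) * ((w + 1) * k) := by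
    rw [hM]; ring
  have e1 : k ≤ (w + 1) * k := Nat.le_mul_of_pos_left _ (by omega)
  have e2 : c * k ≤ c * ((w + 1) * k) := Nat.mul_le_mul_left _ e1
  have e3 : (d + 42) * k ≤ (d + 42) * ((w + 1) * k) := Nat.mul_le_mul_left _ e1
  have e4 : (d + 42) * k = k * (d + 3) + 39 * k := by ring
  have hroom' : ρ.card + (k + (w + 1) * k) + c * ((w + 1) * k) + c * k + 3 * k + k * (d + 3) ≤ κ := by
    omega
  have hno := no_bad (c := c) hS hroom' (by
    intro i
    rcases R.sound i with h | h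
    · left
      rintro ⟨σ, s1, s2, s3, s4⟩
      have hi : R.line i ∈ allSub R.line := mem_allSub _ i
      obtain ⟨y, h1, h2, h3, a, ha, hs⟩ := exists_handled hS hi s1 s2 (by omega)
      have hV := V_handled hS hi h2 (s2.trans h1) (by omega) hs
      have hD := hs _ (mem_cl.mpr (Or.inl rfl))
      have hia : R.line i ∉ a := by
        intro hia
        obtain ⟨y', f1, f2, f3, f4⟩ := V_iff.mp (hV.mpr hia)
        exact F_cons hG (hS.mem _ hi) f2 (by omega) f4 (W_mono _ s4 (h1.trans f1) f2)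
      rw [decide_eq_false hia] at hD
      have hDU := D_memU hS hi ha (mem_cl.mpr (Or.inl rfl))
      have hdepD : (D d a (R.line i)).depth ≤ d + 3 := by
        have q1 := alt_D hd a (R.line i) true
        have q2 := alt_D hd a (R.line i) false
        rw [Fm.depth]
        exact max_le (by omega) (by omega)
      exact clause_ok hκ1 hB hm (clause_D a h) hdepD h2 (by omega) hD
    · exact Or.inr h)
  obtain ⟨i, f, hi⟩ := R.contra
  apply hno i
  refine ⟨ρ, hρ1, subset_rfl, by omega, ?_⟩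
  rw [hi, ct_shallow (by
    have : (Fm.or 0 f).depth ≤ 1 := by simp [Fm.depth, Fm.alt]
    omega)]
  change W k (mf _ (.or 0 f)) false ρ
  rw [W_mf_or_false]
  intro _ _ _ _ j
  exact j.elim0

open Filter Topology in
/-- numerical part -/
theorem lower_exp (c d : ℕ) (hd : 1 ≤ d) (δ : ℝ) (hδ : 0 < δ) : ∃ ε : ℝ, 0 < ε ∧ ∃ n₀ : ℕ,
    ∀ n m : ℕ, n₀ ≤ n → (m : ℝ) ≤ n + (n : ℝ) ^ (1 - δ) →
    ∀ (A : Fm (Fin m × Fin n) → Prop), (∀ φ, A φ → ((deep d φ).card : ℝ) ≤ (n : ℝ) ^ ε) →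
    ∀ R : Refutation c A, Real.exp ((n : ℝ) ^ ε) ≤ ((allSub R.line).card : ℝ) := by
  obtain ⟨C, hC, hlow⟩ := lower c d hd
  set E : ℕ := 12 ^ (d + 3) with hE
  have hE1 : 1 ≤ E := Nat.one_le_pow _ _ (by norm_num)
  have hEr : (1 : ℝ) ≤ E := by exact_mod_cast hE1
  set δ' : ℝ := min δ 1 with hδ'
  have hδ0 : 0 < δ' := lt_min hδ one_pos
  have hδ1 : δ' ≤ 1 := min_le_right _ _
  have hδδ : δ' ≤ δ := min_le_left _ _
  set ε : ℝ := δ' / (8 * E) with hε
  have hε0 : 0 < ε := by positivity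
  have htend : Tendsto (fun n : ℕ => ((n : ℕ) : ℝ) ^ (δ' / 4)) atTop atTop :=
    (tendsto_rpow_atTop (by positivity)).comp tendsto_natCast_atTop_atTop
  obtain ⟨n₀, hn₀⟩ := eventually_atTop.mp (htend.eventually_ge_atTop (((30 * C : ℕ) : ℝ) ^ E + 4))
  refine ⟨ε, hε0, max n₀ 1, ?_⟩
  intro n m hn hm A hA R
  have hn1 : 1 ≤ n := (le_max_right _ _).trans hn
  have hn1r : (1 : ℝ) ≤ n := by exact_mod_cast hn1
  have hn0r : (0 : ℝ) < n := by linarith
  set x : ℝ := (n : ℝ) ^ (δ' / 4) with hx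
  have hxbig : ((30 * C : ℕ) : ℝ) ^ E + 4 ≤ x := hn₀ n ((le_max_left _ _).trans hn)
  have hCE : (0 : ℝ) ≤ ((30 * C : ℕ) : ℝ) ^ E := by positivity
  have hx4 : 4 ≤ x := by linarith
  have hxpow : x ^ 4 = (n : ℝ) ^ δ' := by
    rw [hx, ← Real.rpow_natCast, ← Real.rpow_mul hn0r.le]
    congr 1
    push_cast
    ring
  -- the blocks
  set z : ℝ := (n : ℝ) ^ (1 - δ') with hz
  have hz1 : 1 ≤ z := Real.one_le_rpow hn1r (by linarith)
  set B : ℕ := ⌈z⌉₊ with hB
  have hBz : z ≤ B := Nat.le_ceil z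
  have hBz2 : (B : ℝ) ≤ 2 * z := by
    have := (Nat.ceil_lt_add_one (by linarith : 0 ≤ z)).le
    linarith
  have hB1 : 1 ≤ B := by
    have : (1 : ℝ) ≤ B := hz1.trans hBz
    exact_mod_cast this
  set κ : ℕ := n / B with hκ
  have hBκ : B * κ ≤ n := Nat.mul_div_le n B
  have hmB : m ≤ n + B := by
    have h1 : (n : ℝ) ^ (1 - δ) ≤ z := Real.rpow_le_rpow_of_exponent_le hn1r (by linarith)
    have h2 : (m : ℝ) ≤ ((n + B : ℕ) : ℝ) := by push_cast; linarith
    exact_mod_cast h2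
  have hκbig : x ^ 4 / 2 - 1 ≤ κ := by
    have h1 : n < B * (κ + 1) := by
      have := Nat.lt_mul_div_succ n (show 0 < B by omega)
      exact this
    have h2 : (n : ℝ) < B * (κ + 1) := by exact_mod_cast h1
    have h3 : x ^ 4 * z = n := by
      rw [hxpow, hz, ← Real.rpow_add hn0r]
      simp
    have h4 : x ^ 4 * z < 2 * z * (κ + 1) := by
      rw [h3]
      refine h2.trans_le ?_
      have : (0 : ℝ) ≤ (κ : ℝ) + 1 := by positivity
      exact mul_le_mul_of_nonneg_right hBz2 this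
    have h5 : x ^ 4 < 2 * (κ + 1) := by
      have h6 : x ^ 4 * z < (2 * (κ + 1)) * z := by linarith
      exact lt_of_mul_lt_mul_right h6 (by linarith)
    linarith
  -- the parameter
  set q : ℕ := ⌈(n : ℝ) ^ ε⌉₊ with hq
  set Y : ℕ := q + 3 with hY
  have hnε : 1 ≤ (n : ℝ) ^ ε := Real.one_le_rpow hn1r hε0.le
  have hqge : (n : ℝ) ^ ε ≤ q := Nat.le_ceil _
  have hqle : (q : ℝ) ≤ (n : ℝ) ^ ε + 1 :=
    (Nat.ceil_lt_add_one (by linarith : 0 ≤ (n : ℝ) ^ ε)).le
  have hY3 : (Y : ℝ) ≤ 5 * (n : ℝ) ^ ε := by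
    rw [hY]; push_cast
    linarith
  have hAY : ∀ φ, A φ → (deep d φ).card ≤ q := by
    intro φ hφ
    have h1 := hA φ hφ
    have h2 : ((deep d φ).card : ℝ) ≤ q := by linarith
    exact_mod_cast h2
  have hCY : (C * Y * (q + 1)) ^ E ≤ κ := by
    have h1 : (((C * Y * (q + 1)) ^ E : ℕ) : ℝ) ≤ (κ : ℝ) := by
      refine le_trans ?_ hκbig
      push_cast
      have h2 : ((C : ℝ) * Y * (q + 1)) ^ E ≤
          (((30 * C : ℕ) : ℝ) * ((n : ℝ) ^ ε * (n : ℝ) ^ ε)) ^ E := by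
        apply pow_le_pow_left₀ (by positivity)
        push_cast
        have h0 : (0 : ℝ) ≤ C := Nat.cast_nonneg _
        have hq3 : (q : ℝ) + 1 ≤ 3 * (n : ℝ) ^ ε := by linarith
        have h3 : (Y : ℝ) * (q + 1) ≤ 30 * ((n : ℝ) ^ ε * (n : ℝ) ^ ε) := by
          have hY0 : (0 : ℝ) ≤ Y := Nat.cast_nonneg _
          have hq0 : (0 : ℝ) ≤ (q : ℝ) + 1 := by positivity
          calc (Y : ℝ) * (q + 1) ≤ (5 * (n : ℝ) ^ ε) * (3 * (n : ℝ) ^ ε) :=
                mul_le_mul hY3 hq3 hq0 (by positivity)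
            _ = 15 * ((n : ℝ) ^ ε * (n : ℝ) ^ ε) := by ring
            _ ≤ 30 * ((n : ℝ) ^ ε * (n : ℝ) ^ ε) := by
                have : (0 : ℝ) ≤ (n : ℝ) ^ ε * (n : ℝ) ^ ε := by positivity
                linarith
        calc (C : ℝ) * Y * (q + 1) = C * (Y * (q + 1)) := by ring
          _ ≤ C * (30 * ((n : ℝ) ^ ε * (n : ℝ) ^ ε)) := mul_le_mul_of_nonneg_left h3 h0
          _ = 30 * C * ((n : ℝ) ^ ε * (n : ℝ) ^ ε) := by ring
      refine h2.trans ?_
      rw [mul_pow]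
      have h3 : ((n : ℝ) ^ ε * (n : ℝ) ^ ε) ^ E = x := by
        rw [← Real.rpow_add hn0r, ← Real.rpow_natCast, ← Real.rpow_mul hn0r.le, hx, hε]
        congr 1
        field_simp
        ring
      rw [h3]
      have h4 : ((30 * C : ℕ) : ℝ) ^ E ≤ x := by linarith
      have h5 : ((30 * C : ℕ) : ℝ) ^ E * x ≤ x * x :=
        mul_le_mul_of_nonneg_right h4 (by linarith)
      refine h5.trans ?_
      nlinarith [mul_self_nonneg (x * x - 4)]
    exact_mod_cast h1
  have hfin := hlow m n κ B Y q (by omega) hBκ hmB hCY A hAY R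
  set N : ℕ := (allSub R.line).card with hN
  have hfin' : (16 : ℝ) ^ Y < 3 * (8 * 4 ^ q * N) := by exact_mod_cast hfin
  have h16 : Real.exp ((n : ℝ) ^ ε) * (24 * 4 ^ q) ≤ (16 : ℝ) ^ Y := by
    have h1 : Real.exp ((n : ℝ) ^ ε) ≤ (4 : ℝ) ^ q := by
      have h2 : Real.exp (q : ℝ) = Real.exp 1 ^ q := by
        rw [← Real.exp_nat_mul, mul_one]
      calc Real.exp ((n : ℝ) ^ ε) ≤ Real.exp (q : ℝ) := Real.exp_le_exp.mpr hqge
        _ = Real.exp 1 ^ q := h2
        _ ≤ 4 ^ q := by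
            apply pow_le_pow_left₀ (Real.exp_pos 1).le
            have := Real.exp_one_lt_d9
            linarith
    calc Real.exp ((n : ℝ) ^ ε) * (24 * 4 ^ q) ≤ 4 ^ q * (24 * 4 ^ q) :=
          mul_le_mul_of_nonneg_right h1 (by positivity)
      _ = 24 * 16 ^ q := by
          rw [show (16 : ℝ) = 4 * 4 by norm_num, mul_pow]; ring
      _ ≤ 4096 * 16 ^ q := by
          have : (0 : ℝ) ≤ 16 ^ q := by positivity
          nlinarith
      _ = 16 ^ Y := by rw [hY, pow_add]; norm_num; ring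
  have hpos : (0 : ℝ) < 24 * 4 ^ q := by positivity
  have h17 : Real.exp ((n : ℝ) ^ ε) * (24 * 4 ^ q) < N * (24 * 4 ^ q) := by
    calc _ ≤ (16 : ℝ) ^ Y := h16
      _ < 3 * (8 * 4 ^ q * N) := hfin'
      _ = N * (24 * 4 ^ q) := by ring
  exact (lt_of_mul_lt_mul_right h17 hpos.le).le

end Pool.Agent.TH677.DS
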