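import Pool.Agent.TH677.DS.Fin

/-!
Bounded depth above formulas with few deep subformulas.
-/

set_option autoImplicit false
set_option linter.unusedSectionVars false

namespace Pool.Agent.TH677.DS

open Finset Pool.Agent.TH710.PHP
open Pool.Agent.TH677.SG (orL sub_orL sub_trans' allSub_sub F decide_one F_cons F_neg)

variable {α : Type}

/-- `φ` is `(d, w)`-light: it has at most `w` different subformulas of depth more than `d` -/
def Light (d w : ℕ) (φ : Fm α) : Prop := (deep d φ).card ≤ w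

open Classical in
/-- The alternation depth (as `Fm.alt`) of a formula above its light subformulas: light subformulas
are treated like variables. -/
noncomputable def talt (d w : ℕ) : Bool → Fm α → ℕ
  | _, .var _ => 0
  | s, .neg φ => if Light d w (.neg φ) then 0 else talt d w (!s) φ
  | true, .and t φs => if Light d w (.and t φs) then 0 else
      univ.sup (fun j => talt d w false (φs j)) + 1
  | false, .and t φs => if Light d w (.and t φs) then 0 else
      univ.sup (fun j => talt d w false (φs j))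
  | true, .or t φs => if Light d w (.or t φs) then 0 else
      univ.sup (fun j => talt d w true (φs j))
  | false, .or t φs => if Light d w (.or t φs) then 0 else
      univ.sup (fun j => talt d w true (φs j)) + 1

/-- The depth of a formula above its light subformulas. -/
noncomputable def tdepth (d w : ℕ) (φ : Fm α) : ℕ := max (talt d w true φ) (talt d w false φ)

open Classical in
noncomputable def ct2 (d w : ℕ) : Fm α → Fm α
  | .var a => .var a
  | .neg φ => if Light d w (.neg φ) then ct d (.neg φ) else .neg (ct2 d w φ)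
  | .and t φs => if Light d w (.and t φs) then ct d (.and t φs) else
      .and t (fun j => ct2 d w (φs j))
  | .or t φs => if Light d w (.or t φs) then ct d (.or t φs) else
      .or t (fun j => ct2 d w (φs j))

variable {d w : ℕ}

lemma Light.sub {φ χ : Fm α} (h : Light d w φ) (hχ : χ ∈ φ.sub) : Light d w χ :=
  (card_le_card (deep_mono hχ)).trans h

lemma ct2_light {φ : Fm α} (h : Light d w φ) : ct2 d w φ = ct d φ := by
  cases φ with
  | var a => rw [ct2, ct, if_neg (by simp [Fm.depth, Fm.alt])]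
  | neg φ => rw [ct2, if_pos h]
  | and t φs => rw [ct2, if_pos h]
  | or t φs => rw [ct2, if_pos h]

lemma alt_ct2 (hd : 1 ≤ d) (φ : Fm α) : ∀ s, (ct2 d w φ).alt s ≤ talt d w s φ + (d + 3) := by
  have key : ∀ (φ : Fm α) (s : Bool), Light d w φ → (ct2 d w φ).alt s ≤ d + 3 := by
    intro φ s h
    have h1 := depth_ct hd φ
    rw [ct2_light h]
    rw [Fm.depth] at h1
    cases s
    · exact (le_max_right _ _).trans h1
    · exact (le_max_left _ _).trans h1
  induction φ with
  | var a => intro s; simp [ct2, Fm.alt]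
  | neg φ ih =>
    intro s
    by_cases h : Light d w (.neg φ)
    · exact (key _ s h).trans (Nat.le_add_left _ _)
    · rw [ct2, if_neg h, Fm.alt, talt, if_neg h]
      exact ih _
  | and t φs ih =>
    intro s
    by_cases h : Light d w (.and t φs)
    · exact (key _ s h).trans (Nat.le_add_left _ _)
    · have h1 : univ.sup (fun j => (ct2 d w (φs j)).alt false) ≤
          univ.sup (fun j => talt d w false (φs j)) + (d + 3) :=
        Finset.sup_le (fun j _ => (ih j false).trans (Nat.add_le_add_right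
          (Finset.le_sup (f := fun j => talt d w false (φs j)) (mem_univ j)) _))
      rw [ct2, if_neg h]
      cases s
      · rw [Fm.alt, talt, if_neg h]; exact h1
      · rw [Fm.alt, talt, if_neg h]; omega
  | or t φs ih =>
    intro s
    by_cases h : Light d w (.or t φs)
    · exact (key _ s h).trans (Nat.le_add_left _ _)
    · have h1 : univ.sup (fun j => (ct2 d w (φs j)).alt true) ≤
          univ.sup (fun j => talt d w true (φs j)) + (d + 3) :=
        Finset.sup_le (fun j _ => (ih j true).trans (Nat.add_le_add_right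
          (Finset.le_sup (f := fun j => talt d w true (φs j)) (mem_univ j)) _))
      rw [ct2, if_neg h]
      cases s
      · rw [Fm.alt, talt, if_neg h]; omega
      · rw [Fm.alt, talt, if_neg h]; exact h1

lemma depth_ct2 (hd : 1 ≤ d) (φ : Fm α) : (ct2 d w φ).depth ≤ tdepth d w φ + (d + 3) := by
  have h1 := alt_ct2 (w := w) hd φ true
  have h2 := alt_ct2 (w := w) hd φ false
  have h3 : talt d w true φ ≤ tdepth d w φ := le_max_left _ _
  have h4 : talt d w false φ ≤ tdepth d w φ := le_max_right _ _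
  rw [Fm.depth]
  exact max_le (by omega) (by omega)

lemma talt_diff (φ : Fm α) :
    talt d w true φ ≤ talt d w false φ + 1 ∧ talt d w false φ ≤ talt d w true φ + 1 := by
  classical
  induction φ with
  | var a => simp [talt]
  | neg φ ih =>
    by_cases h : Light d w (.neg φ)
    · simp [talt, h]
    · simp only [talt, if_neg h, Bool.not_true, Bool.not_false]
      exact ⟨ih.2, ih.1⟩
  | and t φs ih =>
    by_cases h : Light d w (.and t φs)
    · simp [talt, h]
    · simp only [talt, if_neg h]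
      omega
  | or t φs ih =>
    by_cases h : Light d w (.or t φs)
    · simp [talt, h]
    · simp only [talt, if_neg h]
      omega

lemma talt_le (φ : Fm α) : talt d w true φ ≤ talt d w false φ + 1 := (talt_diff φ).1

lemma talt_le' (φ : Fm α) : talt d w false φ ≤ talt d w true φ + 1 := (talt_diff φ).2

lemma tdepth_sub (φ : Fm α) : ∀ χ ∈ φ.sub, ∀ D, tdepth d w φ ≤ D → tdepth d w χ ≤ D := by
  classical
  have hl : ∀ χ : Fm α, Light d w χ → tdepth d w χ = 0 := by
    intro χ h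
    cases χ with
    | var a => simp [tdepth, talt]
    | neg φ => simp [tdepth, talt, h]
    | and t φs => simp [tdepth, talt, h]
    | or t φs => simp [tdepth, talt, h]
  induction φ with
  | var a =>
    intro χ hχ D hD
    rw [Fm.sub, mem_singleton] at hχ
    rw [hχ]; exact hD
  | neg φ ih =>
    intro χ hχ D hD
    have hχ' := hχ
    rw [Fm.sub, mem_insert] at hχ'
    rcases hχ' with rfl | hχ'
    · exact hD
    by_cases h : Light d w (.neg φ)
    · rw [hl χ (h.sub hχ)]; omega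
    · refine ih χ hχ' D ?_
      simp only [tdepth, talt, if_neg h, Bool.not_true, Bool.not_false] at hD ⊢
      rw [max_comm]
      exact hD
  | and t φs ih =>
    intro χ hχ D hD
    have hχ' := hχ
    rw [Fm.sub, mem_insert, mem_biUnion] at hχ'
    rcases hχ' with rfl | ⟨j, _, hχ'⟩
    · exact hD
    by_cases h : Light d w (.and t φs)
    · rw [hl χ (h.sub hχ)]; omega
    · refine ih j χ hχ' D ?_
      have h1 := Finset.le_sup (f := fun j => talt d w false (φs j)) (mem_univ j)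
      simp only [tdepth, talt, if_neg h] at hD ⊢
      have h2 := (max_le_iff.mp hD).1
      have h3 : talt d w true (φs j) ≤ talt d w false (φs j) + 1 := talt_le (φs j)
      exact max_le (by omega) (by omega)
  | or t φs ih =>
    intro χ hχ D hD
    have hχ' := hχ
    rw [Fm.sub, mem_insert, mem_biUnion] at hχ'
    rcases hχ' with rfl | ⟨j, _, hχ'⟩
    · exact hD
    by_cases h : Light d w (.or t φs)
    · rw [hl χ (h.sub hχ)]; omega
    · refine ih j χ hχ' D ?_
      have h1 := Finset.le_sup (f := fun j => talt d w true (φs j)) (mem_univ j)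
      simp only [tdepth, talt, if_neg h] at hD ⊢
      have h2 := (max_le_iff.mp hD).2
      have h3 : talt d w false (φs j) ≤ talt d w true (φs j) + 1 := talt_le' (φs j)
      exact max_le (by omega) (by omega)

/-- the translations of all members of `𝒱` -/
noncomputable def tl2 (d w : ℕ) (𝒱 : Finset (Fm α)) : Fin 𝒱.toList.length → Fm α :=
  fun i => ct2 d w (𝒱.toList.get i)

lemma tl2_mem {𝒱 : Finset (Fm α)} {χ : Fm α} (h : χ ∈ 𝒱) : ct2 d w χ ∈ allSub (tl2 d w 𝒱) := by
  obtain ⟨i, hi⟩ := List.get_of_mem (Finset.mem_toList.mpr h)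
  have := mem_allSub (tl2 d w 𝒱) i
  rw [tl2, hi] at this
  exact this

open Classical in
/-- the light members -/
noncomputable def lights (d w : ℕ) (𝒱 : Finset (Fm α)) : Finset (Fm α) := 𝒱.filter (Light d w)

lemma mem_lights {𝒱 : Finset (Fm α)} {χ : Fm α} : χ ∈ lights d w 𝒱 ↔ χ ∈ 𝒱 ∧ Light d w χ := by
  classical
  rw [lights, mem_filter]

lemma ct2_sub {𝒱 : Finset (Fm α)} (h𝒱 : ∀ ψ ∈ 𝒱, ∀ χ ∈ ψ.sub, χ ∈ 𝒱) (φ : Fm α) : φ ∈ 𝒱 →
    ∀ χ ∈ (ct2 d w φ).sub, (∃ ψ ∈ 𝒱, χ = ct2 d w ψ) ∨ ∃ ψ ∈ lights d w 𝒱, χ ∈ (ct d ψ).sub := by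
  classical
  have key : ∀ φ : Fm α, φ ∈ 𝒱 → Light d w φ → ∀ χ ∈ (ct2 d w φ).sub,
      (∃ ψ ∈ 𝒱, χ = ct2 d w ψ) ∨ ∃ ψ ∈ lights d w 𝒱, χ ∈ (ct d ψ).sub := by
    intro φ hφ hl χ hχ
    rw [ct2_light hl] at hχ
    exact Or.inr ⟨φ, mem_lights.mpr ⟨hφ, hl⟩, hχ⟩
  induction φ with
  | var a =>
    intro hφ χ hχ
    rw [ct2, Fm.sub, mem_singleton] at hχ
    exact Or.inl ⟨_, hφ, by rw [hχ, ct2]⟩
  | neg φ ih =>
    intro hφ χ hχ
    by_cases h : Light d w (.neg φ)
    · exact key _ hφ h χ hχ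
    · rw [ct2, if_neg h, Fm.sub, mem_insert] at hχ
      rcases hχ with hχ | hχ
      · exact Or.inl ⟨_, hφ, by rw [hχ, ct2, if_neg h]⟩
      · exact ih (h𝒱 _ hφ _ (Ch.sub (χ := .neg φ) rfl)) χ hχ
  | and t φs ih =>
    intro hφ χ hχ
    by_cases h : Light d w (.and t φs)
    · exact key _ hφ h χ hχ
    · rw [ct2, if_neg h, Fm.sub, mem_insert, mem_biUnion] at hχ
      rcases hχ with hχ | ⟨j, _, hχ⟩
      · exact Or.inl ⟨_, hφ, by rw [hχ, ct2, if_neg h]⟩
      · exact ih j (h𝒱 _ hφ _ (Ch.sub (χ := .and t φs) ⟨j, rfl⟩)) χ hχ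
  | or t φs ih =>
    intro hφ χ hχ
    by_cases h : Light d w (.or t φs)
    · exact key _ hφ h χ hχ
    · rw [ct2, if_neg h, Fm.sub, mem_insert, mem_biUnion] at hχ
      rcases hχ with hχ | ⟨j, _, hχ⟩
      · exact Or.inl ⟨_, hφ, by rw [hχ, ct2, if_neg h]⟩
      · exact ih j (h𝒱 _ hφ _ (Ch.sub (χ := .or t φs) ⟨j, rfl⟩)) χ hχ

lemma tl2_card {𝒱 : Finset (Fm α)} (h𝒱 : ∀ ψ ∈ 𝒱, ∀ χ ∈ ψ.sub, χ ∈ 𝒱)
    (hne : 1 ≤ (lights d w 𝒱).card) :
    (allSub (tl2 d w 𝒱)).card ≤ 9 * 4 ^ w * 𝒱.card := by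
  classical
  have h1 : allSub (tl2 d w 𝒱) ⊆ 𝒱.image (ct2 d w) ∪ allSub (tl d (lights d w 𝒱)) := by
    intro χ hχ
    rw [allSub, mem_biUnion] at hχ
    obtain ⟨i, _, hχ⟩ := hχ
    have hm : 𝒱.toList.get i ∈ 𝒱 := Finset.mem_toList.mp (List.get_mem _ _)
    rw [mem_union]
    rcases ct2_sub h𝒱 _ hm χ hχ with ⟨ψ, h2, h3⟩ | ⟨ψ, h2, h3⟩
    · left; rw [h3]; exact mem_image_of_mem _ h2
    · right; exact allSub_sub _ _ (tl_mem h2) _ h3
  have h2 := card_le_card h1
  have h3 := card_union_le (𝒱.image (ct2 d w)) (allSub (tl d (lights d w 𝒱)))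
  have h4 : (𝒱.image (ct2 d w)).card ≤ 𝒱.card := card_image_le
  have h5 := tl_card (d := d) (w := w) (𝒱 := lights d w 𝒱) (by
    intro ψ hψ χ hχ
    rw [mem_lights] at hψ ⊢
    exact ⟨h𝒱 ψ hψ.1 χ hχ, hψ.2.sub hχ⟩) hne (fun φ hφ => (mem_lights.mp hφ).2)
  have h6 : (lights d w 𝒱).card ≤ 𝒱.card := card_filter_le _ _
  have h7 : 8 * 4 ^ w * (lights d w 𝒱).card ≤ 8 * 4 ^ w * 𝒱.card := Nat.mul_le_mul_left _ h6
  have h8 : 𝒱.card ≤ 4 ^ w * 𝒱.card := Nat.le_mul_of_pos_left _ (by positivity)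
  have e : 9 * 4 ^ w * 𝒱.card = 8 * 4 ^ w * 𝒱.card + 4 ^ w * 𝒱.card := by ring
  omega

section eval

variable {n k K : ℕ} {ρ : PS n} {g : α → MF n} {𝒰 𝒱 : Finset (Fm α)}

/-- standing assumptions -/
structure Std2 (g : α → MF n) (k K d w : ℕ) (ρ : PS n) (𝒰 𝒱 : Finset (Fm α)) : Prop where
  good : Good g k K ρ 𝒰
  sub : ∀ ψ ∈ 𝒰, ∀ χ ∈ ψ.sub, χ ∈ 𝒰
  vsub : ∀ ψ ∈ 𝒱, ∀ χ ∈ ψ.sub, χ ∈ 𝒱
  mem : ∀ ψ ∈ 𝒱, ct2 d w ψ ∈ 𝒰

lemma Std2.std (hS : Std2 g k K d w ρ 𝒰 𝒱) : Std g k K d w ρ 𝒰 (lights d w 𝒱) where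
  good := hS.good
  sub := hS.sub
  vsub := by
    intro ψ hψ χ hχ
    rw [mem_lights] at hψ ⊢
    exact ⟨hS.vsub ψ hψ.1 χ hχ, hψ.2.sub hχ⟩
  mem := by
    intro ψ hψ
    rw [mem_lights] at hψ
    rw [← ct2_light hψ.2]
    exact hS.mem ψ hψ.1
  few := fun ψ hψ => (mem_lights.mp hψ).2

open Classical in
/-- truth value at `y`: can the formula become true? -/
noncomputable def V2 (g : α → MF n) (k K d w : ℕ) (y : PS n) (χ : Fm α) : Bool :=
  decide (∃ y', y ⊆ y' ∧ IsPP y' ∧ y'.card + (k * K + 2 * k) ≤ n ∧ F g k true y' (ct2 d w χ))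

lemma V2_iff {y : PS n} {χ : Fm α} : V2 g k K d w y χ = true ↔
    ∃ y', y ⊆ y' ∧ IsPP y' ∧ y'.card + (k * K + 2 * k) ≤ n ∧ F g k true y' (ct2 d w χ) := by
  classical
  rw [V2, decide_eq_true_eq]

lemma V2_light {y : PS n} {χ : Fm α} (h : Light d w χ) : V2 g k K d w y χ = V g k K d y χ := by
  rw [V2, V, ct2_light h]

lemma V2_true {y : PS n} {χ : Fm α} (hy : IsPP y) (hr : y.card + 3 * k + k * K ≤ n)
    (h : F g k true y (ct2 d w χ)) : V2 g k K d w y χ = true :=
  V2_iff.mpr ⟨y, subset_rfl, hy, by omega, h⟩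

lemma V2_false (hS : Std2 g k K d w ρ 𝒰 𝒱) {y : PS n} {χ : Fm α} (hχ : χ ∈ 𝒱)
    (h : F g k false y (ct2 d w χ)) : V2 g k K d w y χ = false := by
  rw [← Bool.not_eq_true]
  intro h1
  obtain ⟨y', g1, g2, g3, g4⟩ := V2_iff.mp h1
  exact F_cons hS.good (hS.mem χ hχ) g2 (by omega) g4 (W_mono _ h g1 g2)

/-- `φ` is handled at `y` -/
def Hd (g : α → MF n) (k d w : ℕ) (y : PS n) (φ : Fm α) : Prop :=
  (Light d w φ → ∃ a ⊆ cl d φ, Settle g k d y (cl d φ) a) ∧
    (¬ Light d w φ → F g k true y (ct2 d w φ) ∨ F g k false y (ct2 d w φ))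

lemma Hd.mono {φ : Fm α} {y z : PS n} (h : Hd g k d w y φ) (hyz : y ⊆ z) (hz : IsPP z) :
    Hd g k d w z φ := by
  refine ⟨fun hl => ?_, fun hl => ?_⟩
  · obtain ⟨a, ha, hs⟩ := h.1 hl
    exact ⟨a, ha, hs.mono hyz hz⟩
  · rcases h.2 hl with h | h
    · exact Or.inl (W_mono _ h hyz hz)
    · exact Or.inr (W_mono _ h hyz hz)

lemma exists_Hd (hS : Std2 g k K d w ρ 𝒰 𝒱) {φ : Fm α} (hφ : φ ∈ 𝒱) {σ : PS n} (hσ : IsPP σ)
    (hρ : ρ ⊆ σ) (hr : σ.card + (w + 1) * k ≤ n) :
    ∃ y, σ ⊆ y ∧ IsPP y ∧ y.card ≤ σ.card + (w + 1) * k ∧ Hd g k d w y φ := by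
  have e1 : k ≤ (w + 1) * k := Nat.le_mul_of_pos_left _ (by omega)
  by_cases hl : Light d w φ
  · obtain ⟨y, h1, h2, h3, h4⟩ := exists_handled hS.std (mem_lights.mpr ⟨hφ, hl⟩) hσ hρ hr
    exact ⟨y, h1, h2, h3, fun _ => h4, fun h => absurd hl h⟩
  · obtain ⟨y, h1, h2, h3, h4⟩ := decide_one hS.good (hS.mem φ hφ) hσ hρ (by omega)
    exact ⟨y, h1, h2, by omega, fun h => absurd h hl, fun _ => h4⟩

lemma resp2 (hS : Std2 g k K d w ρ 𝒰 𝒱) {φ : Fm α} (hφ : φ ∈ 𝒱) {y : PS n} (hy : IsPP y)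
    (hρ : ρ ⊆ y) (hr : y.card + 3 * k + k * K ≤ n) (h : Hd g k d w y φ) :
    RespAt (V2 g k K d w y) φ := by
  classical
  by_cases hl : Light d w φ
  · obtain ⟨a, ha, hs⟩ := h.1 hl
    have h1 := resp hS.std (mem_lights.mpr ⟨hφ, hl⟩) ha hy hρ hr hs
    have hch : ∀ ψ, Ch ψ φ → V2 g k K d w y ψ = V g k K d y ψ := fun ψ hψ =>
      V2_light (hl.sub hψ.sub)
    have h0 := V2_light (g := g) (k := k) (K := K) (y := y) hl
    cases φ with
    | var x => trivial
    | neg ψ =>
      show V2 g k K d w y (.neg ψ) = !(V2 g k K d w y ψ)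
      rw [h0, hch ψ rfl]
      exact h1
    | and t φs =>
      show V2 g k K d w y (.and t φs) = true ↔ ∀ j, V2 g k K d w y (φs j) = true
      rw [h0]
      refine h1.trans (forall_congr' (fun j => ?_))
      rw [hch (φs j) ⟨j, rfl⟩]
    | or t φs =>
      show V2 g k K d w y (.or t φs) = true ↔ ∃ j, V2 g k K d w y (φs j) = true
      rw [h0]
      refine h1.trans (exists_congr (fun j => ?_))
      rw [hch (φs j) ⟨j, rfl⟩]
  · have hF := h.2 hl
    have hdep := Nat.mul_le_mul_left k (hS.good.dep _ (hS.mem φ hφ))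
    cases φ with
    | var x => trivial
    | neg ψ =>
      show V2 g k K d w y (.neg ψ) = !(V2 g k K d w y ψ)
      have hψ : ψ ∈ 𝒱 := hS.vsub _ hφ _ (Ch.sub (χ := .neg ψ) rfl)
      rcases hF with hF | hF
      · rw [V2_true hy hr hF]
        rw [ct2, if_neg hl, F_neg, Bool.not_true] at hF
        rw [V2_false hS hψ hF]
        rfl
      · rw [V2_false hS hφ hF]
        rw [ct2, if_neg hl, F_neg, Bool.not_false] at hF
        rw [V2_true hy hr hF]
        rfl
    | and t φs =>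
      show V2 g k K d w y (.and t φs) = true ↔ ∀ j, V2 g k K d w y (φs j) = true
      have hψ : ∀ j, φs j ∈ 𝒱 := fun j => hS.vsub _ hφ _ (Ch.sub (χ := .and t φs) ⟨j, rfl⟩)
      rcases hF with hF | hF
      · refine iff_of_true (V2_true hy hr hF) (fun j => ?_)
        rw [ct2, if_neg hl] at hF hdep
        obtain ⟨z, h1, h2, h3, h4⟩ := decide_one hS.good (hS.mem _ (hψ j)) hy hρ (by omega)
        rcases h4 with h4 | h4
        · exact V2_iff.mpr ⟨z, h1, h2, by omega, h4⟩
        · exact absurd h4 (W_mf_and_true.mp hF z h2 h1 (by omega) j)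
      · have h0 := V2_false hS hφ hF
        rw [ct2, if_neg hl] at hF
        change W k (mf g (.and t _)) false y at hF
        rw [W_mf_and_false] at hF
        obtain ⟨j, hj⟩ := hF
        have h1 := V2_false hS (hψ j) hj
        refine iff_of_false (by rw [h0]; simp) (fun hall => ?_)
        rw [hall j] at h1
        exact Bool.noConfusion h1
    | or t φs =>
      show V2 g k K d w y (.or t φs) = true ↔ ∃ j, V2 g k K d w y (φs j) = true
      have hψ : ∀ j, φs j ∈ 𝒱 := fun j => hS.vsub _ hφ _ (Ch.sub (χ := .or t φs) ⟨j, rfl⟩)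
      rcases hF with hF | hF
      · have h0 := V2_true hy hr hF
        rw [ct2, if_neg hl] at hF
        change W k (mf g (.or t _)) true y at hF
        rw [W_mf_or_true] at hF
        obtain ⟨j, hj⟩ := hF
        exact iff_of_true h0 ⟨j, V2_true hy hr hj⟩
      · have h0 := V2_false hS hφ hF
        rw [ct2, if_neg hl] at hF hdep
        refine iff_of_false (by rw [h0]; simp) ?_
        rintro ⟨j, hj⟩
        obtain ⟨y', g1, g2, g3, g4⟩ := V2_iff.mp hj
        exact W_mf_or_false.mp hF y' g2 g1 (by omega) j g4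

/-- the line `i` is false at some small matching -/
def Bad2 (g : α → MF n) (k d w : ℕ) (ρ : PS n) {T : ℕ} (L : Fin T → Fm α) (i : Fin T) : Prop :=
  ∃ σ, IsPP σ ∧ ρ ⊆ σ ∧ σ.card ≤ ρ.card + k ∧ F g k false σ (ct2 d w (L i))

lemma exists_Hd_all (hS : Std2 g k K d w ρ 𝒰 𝒱) (Q : Finset (Fm α)) (hQ : Q ⊆ 𝒱) (π : PS n)
    (hπ : IsPP π) (hρ : ρ ⊆ π) (hr : π.card + Q.card * ((w + 1) * k) ≤ n) :
    ∃ y, π ⊆ y ∧ IsPP y ∧ y.card ≤ π.card + Q.card * ((w + 1) * k) ∧
      ∀ φ ∈ Q, Hd g k d w y φ := by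
  classical
  induction Q using Finset.induction_on with
  | empty => exact ⟨π, subset_rfl, hπ, by omega, by simp⟩
  | insert b Q hb ih =>
    rw [card_insert_of_notMem hb, Nat.add_mul, one_mul] at hr ⊢
    obtain ⟨y, h1, h2, h3, h4⟩ := ih ((subset_insert _ _).trans hQ) (by omega)
    obtain ⟨z, g1, g2, g3, g4⟩ := exists_Hd hS (hQ (mem_insert_self _ _)) h2
      (hρ.trans h1) (by omega)
    refine ⟨z, h1.trans g1, g2, by omega, ?_⟩
    intro φ hφ
    rcases mem_insert.mp hφ with rfl | hφ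
    · exact g4
    · exact (h4 φ hφ).mono g1 g2

lemma exists_lines2 (hS : Std2 g k K d w ρ 𝒰 𝒱) {T : ℕ} {L : Fin T → Fm α}
    (hL : ∀ j, L j ∈ 𝒱) (P : Finset (Fin T)) (hP : ∀ j ∈ P, ¬ Bad2 g k d w ρ L j) (π : PS n)
    (hπ : IsPP π) (hρ : ρ ⊆ π) (hr : π.card + P.card * k ≤ n) :
    ∃ y, π ⊆ y ∧ IsPP y ∧ y.card ≤ π.card + P.card * k ∧
      ∀ j ∈ P, F g k true y (ct2 d w (L j)) := by
  classical
  induction P using Finset.induction_on with
  | empty => exact ⟨π, subset_rfl, hπ, by omega, by simp⟩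
  | insert b P hb ih =>
    rw [card_insert_of_notMem hb, Nat.add_mul, one_mul] at hr ⊢
    obtain ⟨y, h1, h2, h3, h4⟩ := ih (fun j hj => hP j (mem_insert_of_mem hj)) (by omega)
    obtain ⟨z, g1, g2, g3, τ, g4⟩ := exists_dec (g := g) (k := k) (ρ := ρ) (ct2 d w (L b)) y h2
      (by omega)
    obtain ⟨a1, a2, a3, a4⟩ := tr_rep (hS.good.tree _ (hS.mem _ (hL b))) z g2
      (hρ.trans (h1.trans g1)) τ g4
    refine ⟨z, h1.trans g1, g2, by omega, ?_⟩
    intro j hj
    rcases mem_insert.mp hj with rfl | hj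
    · rcases a4 with h | h
      · exact W_mono _ h a2 g2
      · exact absurd ⟨τ, g2.mono a2, a1, a3, h⟩ (hP j (mem_insert_self _ _))
    · exact W_mono _ (h4 j hj) g1 g2

/-- local inferences preserve truth -/
lemma local_contra2 {c T : ℕ} {L : Fin T → Fm α} (hS : Std2 g k K d w ρ 𝒰 (allSub L))
    (hroom : ρ.card + (k + (w + 1) * k) + c * ((w + 1) * k) + c * k + 3 * k + k * K ≤ n)
    {i : Fin T} {H : (Fm α → Bool) → Prop}
    (hloc : Local c L i H) (ih : ∀ j < i, ¬ Bad2 g k d w ρ L j) {π : PS n} (hπ : IsPP π)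
    (hρπ : ρ ⊆ π) (hπc : π.card ≤ ρ.card + (k + (w + 1) * k))
    (hW : F g k false π (ct2 d w (L i)))
    (hH : ∀ y, IsPP y → π ⊆ y → y.card + 3 * k + k * K ≤ n → H (V2 g k K d w y)) : False := by
  classical
  obtain ⟨P, Q, hP, hQ, hlt, hQU, hinf⟩ := hloc
  have eQ : Q.card * ((w + 1) * k) ≤ c * ((w + 1) * k) := Nat.mul_le_mul_right _ hQ
  have eP : P.card * k ≤ c * k := Nat.mul_le_mul_right _ hP
  obtain ⟨y1, h1, h2, h3, h4⟩ := exists_Hd_all hS Q hQU π hπ hρπ (by omega)
  obtain ⟨y, g1, g2, g3, g4⟩ := exists_lines2 hS (mem_allSub L) P (fun j hj => ih j (hlt j hj)) y1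
    h2 (hρπ.trans h1) (by omega)
  have hπy : π ⊆ y := h1.trans g1
  have hρy : ρ ⊆ y := hρπ.trans hπy
  have hres : V2 g k K d w y (L i) = true := by
    refine hinf (V2 g k K d w y) ?_ ?_ ?_
    · intro χ hχ
      exact resp2 hS (hQU hχ) g2 hρy (by omega) ((h4 χ hχ).mono g1 g2)
    · intro j hj
      exact V2_true g2 (by omega) (g4 j hj)
    · exact hH y g2 hπy (by omega)
  obtain ⟨y', f1, f2, f3, f4⟩ := V2_iff.mp hres
  exact F_cons hS.good (hS.mem _ (mem_allSub L i)) f2 (by omega) f4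
    (W_mono _ hW (hπy.trans f1) f2)

/-- no line is false at a small matching -/
theorem no_bad2 {c T : ℕ} {L : Fin T → Fm α} (hS : Std2 g k K d w ρ 𝒰 (allSub L))
    (hroom : ρ.card + (k + (w + 1) * k) + c * ((w + 1) * k) + c * k + 3 * k + k * K ≤ n)
    (hL : ∀ i, (¬ Bad2 g k d w ρ L i) ∨ Inferred c L i) : ∀ i, ¬ Bad2 g k d w ρ L i := by
  classical
  suffices H : ∀ m : ℕ, ∀ i : Fin T, i.val = m → ¬ Bad2 g k d w ρ L i from fun i => H i.val i rfl
  intro m
  induction m using Nat.strong_induction_on with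
  | _ m ihm =>
    intro i him hbad
    have ih : ∀ j < i, ¬ Bad2 g k d w ρ L j :=
      fun j hj => ihm j.val (by rw [← him]; exact hj) j rfl
    rcases hL i with h | h
    · exact h hbad
    obtain ⟨σ, s1, s2, s3, s4⟩ := hbad
    rcases h with h | ⟨t, φs, hmem, hA, hB⟩ | ⟨t, φs, hmem, hA, hB⟩
    · exact local_contra2 hS hroom h ih s1 s2 (by omega) s4 (fun _ _ _ _ => trivial)
    · obtain ⟨y, h1, h2, h3, hH⟩ := exists_Hd hS hmem s1 s2 (by omega)
      have hψ : ∀ j, φs j ∈ allSub L := fun j =>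
        hS.vsub _ hmem _ (Ch.sub (χ := .and t φs) ⟨j, rfl⟩)
      by_cases hl : Light d w (.and t φs)
      · obtain ⟨a, ha, hs⟩ := hH.1 hl
        have hmem' := mem_lights.mpr ⟨hmem, hl⟩
        have hD := hs _ (mem_cl.mpr (Or.inl rfl))
        by_cases hφa : Fm.and t φs ∈ a
        · refine local_contra2 hS hroom hA ih h2 (s2.trans h1) (by omega) (W_mono _ s4 h1 h2)
            (fun z hz hyz hr => ?_)
          rw [V2_light hl]
          exact (V_handled hS.std hmem' hz (s2.trans (h1.trans hyz)) hr (hs.mono hyz hz)).mpr hφa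
        · rw [decide_eq_false hφa, D] at hD
          change W k (mf g (.and t _)) false y at hD
          rw [W_mf_and_false] at hD
          obtain ⟨j, hj⟩ := hD
          refine local_contra2 hS hroom (hB j) ih h2 (s2.trans h1) (by omega) (W_mono _ s4 h1 h2)
            (fun z hz hyz hr => ?_)
          rw [V2_light (hl.sub (Ch.sub (χ := .and t φs) ⟨j, rfl⟩))]
          exact child_false hS.std hmem' hs ⟨j, rfl⟩ hj hyz hz (s2.trans (h1.trans hyz)) hr
      · rcases hH.2 hl with hF | hF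
        · exact local_contra2 hS hroom hA ih h2 (s2.trans h1) (by omega) (W_mono _ s4 h1 h2)
            (fun z hz hyz hr => V2_true hz hr (W_mono _ hF hyz hz))
        · rw [ct2, if_neg hl] at hF
          change W k (mf g (.and t _)) false y at hF
          rw [W_mf_and_false] at hF
          obtain ⟨j, hj⟩ := hF
          exact local_contra2 hS hroom (hB j) ih h2 (s2.trans h1) (by omega) (W_mono _ s4 h1 h2)
            (fun z hz hyz hr => V2_false hS (hψ j) (W_mono _ hj hyz hz))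
    · obtain ⟨y, h1, h2, h3, hH⟩ := exists_Hd hS hmem s1 s2 (by omega)
      have hψ : ∀ j, φs j ∈ allSub L := fun j =>
        hS.vsub _ hmem _ (Ch.sub (χ := .or t φs) ⟨j, rfl⟩)
      by_cases hl : Light d w (.or t φs)
      · obtain ⟨a, ha, hs⟩ := hH.1 hl
        have hmem' := mem_lights.mpr ⟨hmem, hl⟩
        have hD := hs _ (mem_cl.mpr (Or.inl rfl))
        by_cases hφa : Fm.or t φs ∈ a
        · rw [decide_eq_true hφa, D] at hD
          change W k (mf g (.or t _)) true y at hD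
          rw [W_mf_or_true] at hD
          obtain ⟨j, hj⟩ := hD
          refine local_contra2 hS hroom (hB j) ih h2 (s2.trans h1) (by omega) (W_mono _ s4 h1 h2)
            (fun z hz hyz hr => ?_)
          rw [V2_light (hl.sub (Ch.sub (χ := .or t φs) ⟨j, rfl⟩))]
          exact child_true hS.std hmem' hs ⟨j, rfl⟩ hj hyz hz (s2.trans (h1.trans hyz)) hr
        · refine local_contra2 hS hroom hA ih h2 (s2.trans h1) (by omega) (W_mono _ s4 h1 h2)
            (fun z hz hyz hr => ?_)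
          rw [V2_light hl, ← Bool.not_eq_true,
            V_handled hS.std hmem' hz (s2.trans (h1.trans hyz)) hr (hs.mono hyz hz)]
          exact hφa
      · rcases hH.2 hl with hF | hF
        · rw [ct2, if_neg hl] at hF
          change W k (mf g (.or t _)) true y at hF
          rw [W_mf_or_true] at hF
          obtain ⟨j, hj⟩ := hF
          exact local_contra2 hS hroom (hB j) ih h2 (s2.trans h1) (by omega) (W_mono _ s4 h1 h2)
            (fun z hz hyz hr => V2_true hz hr (W_mono _ hj hyz hz))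
        · exact local_contra2 hS hroom hA ih h2 (s2.trans h1) (by omega) (W_mono _ s4 h1 h2)
            (fun z hz hyz hr => V2_false hS hmem (W_mono _ hF hyz hz))

end eval

end Pool.Agent.TH677.DS
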